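import Mathlib

/-!
# Many `n` such that `n (n + 1)` is squarefree
-/

set_option autoImplicit false

namespace Pool.Agent.Q128.SDF

open Finset

lemma card_class (M q : ℕ) (s : Finset ℕ) (hs : s ⊆ range M)
    (h : ∀ x ∈ s, ∀ y ∈ s, x ≡ y [MOD q]) : (s.card : ℝ) ≤ (M : ℝ) / q + 1 := by
  have h1 : s.card ≤ (range (M / q + 1)).card := by
    apply card_le_card_of_injOn (fun x => x / q)
    · intro x hx
      have h2 := mem_range.1 (hs hx)
      simp only [coe_range, Set.mem_Iio]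
      exact Nat.lt_succ_of_le (Nat.div_le_div_right h2.le)
    · intro x hx y hy hxy
      have h2 := h x hx y hy
      have h3 : x / q = y / q := hxy
      rw [← Nat.div_add_mod x q, ← Nat.div_add_mod y q, h3, h2]
  rw [card_range] at h1
  calc (s.card : ℝ) ≤ ((M / q + 1 : ℕ) : ℝ) := by exact_mod_cast h1
    _ ≤ (M : ℝ) / q + 1 := by
      push_cast
      have := @Nat.cast_div_le ℝ _ _ _ M q
      linarith

lemma card_bad (M c q : ℕ) (hc : Nat.Coprime 36 q) :
    (((range M).filter fun m => q ∣ 36 * m + c).card : ℝ) ≤ (M : ℝ) / q + 1 := by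
  apply card_class M q _ (filter_subset _ _)
  intro x hx y hy
  rw [mem_filter] at hx hy
  have h1 : 36 * x + c ≡ 36 * y + c [MOD q] :=
    ((Nat.modEq_zero_iff_dvd).2 hx.2).trans ((Nat.modEq_zero_iff_dvd).2 hy.2).symm
  have h2 : 36 * x ≡ 36 * y [MOD q] := Nat.ModEq.add_right_cancel' c h1
  exact Nat.ModEq.cancel_left_of_coprime (by rwa [Nat.coprime_comm] at hc) h2

lemma sum_inv (R : ℕ) : ∑ n ∈ Finset.Ico 5 (R + 5), (1 : ℝ) / (n ^ 2 : ℕ) ≤ 1 / 4 - 1 / (R + 4) := by
  induction R with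
  | zero => norm_num
  | succ R ih =>
    rw [show R + 1 + 5 = (R + 5) + 1 from rfl, Finset.sum_Ico_succ_top (by omega)]
    have h : (1 : ℝ) / ((R + 5) ^ 2 : ℕ) ≤ 1 / (R + 4) - 1 / ((R + 1 : ℕ) + 4) := by
      push_cast
      rw [div_sub_div _ _ (by positivity) (by positivity), div_le_div_iff₀ (by positivity)
        (by positivity)]
      nlinarith [(Nat.cast_nonneg R : (0 : ℝ) ≤ R)]
    linarith

lemma not_sqfree {m c : ℕ} (hc : c = 1 ∨ c = 2) (h : ¬ Squarefree (36 * m + c)) :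
    ∃ n, 5 ≤ n ∧ n ^ 2 ≤ 36 * m + c ∧ n ^ 2 ∣ 36 * m + c ∧ Nat.Coprime 36 (n ^ 2) := by
  rw [Nat.squarefree_iff_prime_squarefree] at h
  push Not at h
  obtain ⟨p, hp, hd⟩ := h
  have hpos : 0 < 36 * m + c := by rcases hc with rfl | rfl <;> omega
  have h2 : p ≠ 2 := by
    rintro rfl
    rcases hc with rfl | rfl <;> omega
  have h3 : p ≠ 3 := by
    rintro rfl
    rcases hc with rfl | rfl <;> omega
  have h4 : p ≠ 4 := by
    rintro rfl
    exact absurd hp (by norm_num)
  have h1 := hp.two_le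
  refine ⟨p, by omega, ?_, ?_, ?_⟩
  · rw [pow_two]
    exact Nat.le_of_dvd hpos hd
  · rw [pow_two]
    exact hd
  · apply Nat.Coprime.pow_right
    have h5 : Nat.Coprime 2 p := (Nat.coprime_primes Nat.prime_two hp).2 (Ne.symm h2)
    have h6 : Nat.Coprime 3 p := (Nat.coprime_primes Nat.prime_three hp).2 (Ne.symm h3)
    have h7 : (36 : ℕ) = 2 ^ 2 * 3 ^ 2 := by norm_num
    rw [h7]
    exact Nat.Coprime.mul_left (Nat.Coprime.pow_left 2 h5) (Nat.Coprime.pow_left 2 h6)

lemma card_bad' (M c n : ℕ) (hn : 5 ≤ n) :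
    (((range M).filter fun m => n ^ 2 ∣ 36 * m + c ∧ Nat.Coprime 36 (n ^ 2)).card : ℝ) ≤
      (M : ℝ) * (1 / (n ^ 2 : ℕ)) + 1 := by
  by_cases h : Nat.Coprime 36 (n ^ 2)
  · have h1 := card_bad M c (n ^ 2) h
    rw [mul_one_div]
    have h2 : ((range M).filter fun m => n ^ 2 ∣ 36 * m + c ∧ Nat.Coprime 36 (n ^ 2)) =
        (range M).filter fun m => n ^ 2 ∣ 36 * m + c := by
      apply filter_congr
      intro m _
      exact ⟨fun h3 => h3.1, fun h3 => ⟨h3, h⟩⟩
    rw [h2]
    exact h1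
  · have h1 : ((range M).filter fun m => n ^ 2 ∣ 36 * m + c ∧ Nat.Coprime 36 (n ^ 2)) = ∅ := by
      apply filter_eq_empty_iff.2
      intro m _ h2
      exact h h2.2
    rw [h1, card_empty]
    push_cast
    positivity

/-- at least `M / 4` of the numbers `m < M` have `(36 m + 1) (36 m + 2)` squarefree, for `M` large -/
theorem many (M : ℕ) (hM : 10000 ≤ M) :
    (M : ℝ) / 4 ≤ ((range M).filter fun m => Squarefree ((36 * m + 1) * (36 * m + 2))).card := by
  classical
  obtain ⟨R, hR⟩ : ∃ R, R = Nat.sqrt (36 * M) := ⟨_, rfl⟩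
  have hR1 : R * R ≤ 36 * M := by rw [hR]; exact Nat.sqrt_le _
  have hR2 : 36 * M < (R + 1) * (R + 1) := by rw [hR]; exact Nat.lt_succ_sqrt _
  have hsub : ((range M).filter fun m => ¬ Squarefree ((36 * m + 1) * (36 * m + 2))) ⊆
      (Finset.Ico 5 (R + 5)).biUnion fun n =>
        ((range M).filter fun m => n ^ 2 ∣ 36 * m + 1 ∧ Nat.Coprime 36 (n ^ 2)) ∪
        ((range M).filter fun m => n ^ 2 ∣ 36 * m + 2 ∧ Nat.Coprime 36 (n ^ 2)) := by
    intro m hm
    rw [mem_filter, mem_range] at hm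
    obtain ⟨hm1, hm2⟩ := hm
    have hco : Nat.Coprime (36 * m + 1) (36 * m + 2) := by
      rw [show 36 * m + 2 = (36 * m + 1) + 1 from rfl]
      exact (Nat.coprime_self_add_right).2 (Nat.coprime_one_right _)
    rw [Nat.squarefree_mul hco, not_and_or] at hm2
    have key : ∀ c, (c = 1 ∨ c = 2) → ¬ Squarefree (36 * m + c) →
        ∃ n ∈ Finset.Ico 5 (R + 5), m ∈ ((range M).filter fun m => n ^ 2 ∣ 36 * m + c ∧
          Nat.Coprime 36 (n ^ 2)) := by
      intro c hc h
      obtain ⟨n, h1, h2, h3, h4⟩ := not_sqfree hc h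
      refine ⟨n, ?_, ?_⟩
      · rw [Finset.mem_Ico]
        refine ⟨h1, ?_⟩
        by_contra hcon
        rw [not_lt] at hcon
        have h5 : n ^ 2 ≤ 36 * M := by
          rcases hc with rfl | rfl <;> omega
        nlinarith
      · rw [mem_filter, mem_range]
        exact ⟨hm1, h3, h4⟩
    rw [mem_biUnion]
    rcases hm2 with h | h
    · obtain ⟨n, h1, h2⟩ := key 1 (Or.inl rfl) h
      exact ⟨n, h1, mem_union_left _ h2⟩
    · obtain ⟨n, h1, h2⟩ := key 2 (Or.inr rfl) h
      exact ⟨n, h1, mem_union_right _ h2⟩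
  have hbad : (((range M).filter fun m => ¬ Squarefree ((36 * m + 1) * (36 * m + 2))).card : ℝ) ≤
      M / 2 + 2 * R := by
    have h1 := (card_le_card hsub).trans card_biUnion_le
    have h2 : (((range M).filter fun m => ¬ Squarefree ((36 * m + 1) * (36 * m + 2))).card : ℝ) ≤
        ∑ n ∈ Finset.Ico 5 (R + 5), (2 * ((M : ℝ) * (1 / (n ^ 2 : ℕ)) + 1)) := by
      refine (Nat.cast_le.2 h1).trans ?_
      push_cast
      apply sum_le_sum
      intro n hn
      rw [Finset.mem_Ico] at hn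
      have h3 := card_bad' M 1 n hn.1
      have h4 := card_bad' M 2 n hn.1
      have h5 : ((((range M).filter fun m => n ^ 2 ∣ 36 * m + 1 ∧ Nat.Coprime 36 (n ^ 2)) ∪
        ((range M).filter fun m => n ^ 2 ∣ 36 * m + 2 ∧ Nat.Coprime 36 (n ^ 2))).card : ℝ) ≤
        (((range M).filter fun m => n ^ 2 ∣ 36 * m + 1 ∧ Nat.Coprime 36 (n ^ 2)).card : ℝ) +
        (((range M).filter fun m => n ^ 2 ∣ 36 * m + 2 ∧ Nat.Coprime 36 (n ^ 2)).card : ℝ) := by
        exact_mod_cast card_union_le _ _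
      push_cast at h3 h4
      linarith
    rw [← mul_sum, sum_add_distrib, ← mul_sum] at h2
    have h6 := sum_inv R
    have h7 : ∑ n ∈ Finset.Ico 5 (R + 5), (1 : ℝ) = R := by simp
    rw [h7] at h2
    have h8 : ∑ n ∈ Finset.Ico 5 (R + 5), (1 : ℝ) / (n ^ 2 : ℕ) ≤ 1 / 4 := by
      have : (0 : ℝ) ≤ 1 / (R + 4) := by positivity
      linarith
    have hM0 : (0 : ℝ) ≤ M := Nat.cast_nonneg _
    nlinarith
  have hR3 : 8 * R ≤ M := by
    by_contra hcon
    rw [not_le] at hcon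
    nlinarith
  have hR4 : 8 * (R : ℝ) ≤ M := by exact_mod_cast hR3
  have hall : ((range M).filter fun m => Squarefree ((36 * m + 1) * (36 * m + 2))).card +
      ((range M).filter fun m => ¬ Squarefree ((36 * m + 1) * (36 * m + 2))).card = M := by
    rw [card_filter_add_card_filter_not, card_range]
  have hall' : (((range M).filter fun m => Squarefree ((36 * m + 1) * (36 * m + 2))).card : ℝ) +
      (((range M).filter fun m => ¬ Squarefree ((36 * m + 1) * (36 * m + 2))).card : ℝ) = M := by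
    exact_mod_cast hall
  linarith

end Pool.Agent.Q128.SDF
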