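import Mathlib
import Pool.Agent.Q128.SDF.Sieve
import Pool.Agent.Withdrawn.MP_a793bb_nt_SmallDigitPoints

/-!
# The points `(n : -(n + 1) : 1)` with `n (n + 1)` squarefree are composed of numbers with small digits
-/

set_option autoImplicit false

namespace Pool.Agent.Q128.SDF

open Polynomial NumberField
open Pool.Agent.Results.MP_a793bb_nt.SmallDigitPoints (Small point unequal logN)

/-- the numbers `t` and `t + 1` -/
noncomputable def F2 : Fin 2 → (𝓞 ℚ)[X] := ![X, X + 1]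

def b3 : Fin 3 → 𝓞 ℚ := ![1, -1, 1]

def e32 : Fin 3 → Fin 2 → ℕ := ![![1, 0], ![0, 1], ![0, 0]]

lemma small (t : ℕ) {D : ℕ} (hD : 2 ≤ D) {δ T : ℝ} (hδ : 0 < δ) (hT : 1 ≤ T) (ht : T ≤ t) :
    Small D δ T (t : 𝓞 ℚ) F2 b3 e32 := by
  have h1 : 1 ≤ T ^ δ := Real.one_le_rpow hT hδ.le
  have hc1 : ∀ j : ℕ, ∀ σ : ℚ →+* ℂ, ‖σ ((X : (𝓞 ℚ)[X]).coeff j : 𝓞 ℚ)‖ ≤ 1 := by
    intro j σ
    rw [coeff_X]
    split_ifs <;> simp
  have hc2 : ∀ j : ℕ, ∀ σ : ℚ →+* ℂ, ‖σ ((X + 1 : (𝓞 ℚ)[X]).coeff j : 𝓞 ℚ)‖ ≤ 1 := by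
    intro j σ
    rw [coeff_add, coeff_X, coeff_one]
    split_ifs with h2 h3 h3
    · omega
    · simp
    · simp
    · simp
  refine ⟨?_, ?_, ?_, ?_, ?_, ?_, ?_, ?_, ?_, ?_⟩
  · intro σ
    have : ((t : 𝓞 ℚ) : ℚ) = (t : ℚ) := by simp
    rw [this, map_natCast, Complex.norm_natCast]
    exact ht
  · intro i
    fin_cases i
    · simp [F2]
    · show 0 < (X + 1 : (𝓞 ℚ)[X]).natDegree
      rw [← C_1, natDegree_X_add_C]
      norm_num
  · rw [Fin.sum_univ_two]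
    have h2 : (F2 0).natDegree = 1 := natDegree_X
    have h3 : (F2 1).natDegree = 1 := by
      show (X + 1 : (𝓞 ℚ)[X]).natDegree = 1
      rw [← C_1, natDegree_X_add_C]
    omega
  · intro i j σ
    fin_cases i
    · exact (hc1 j σ).trans h1
    · exact (hc2 j σ).trans h1
  · intro i σ
    have h2 : (F2 i).leadingCoeff = 1 := by
      fin_cases i
      · exact leadingCoeff_X
      · show (X + 1 : (𝓞 ℚ)[X]).leadingCoeff = 1
        rw [← C_1, leadingCoeff_X_add_C]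
    rw [h2]
    have h3 : ‖σ ((1 : 𝓞 ℚ) : ℚ)‖ = 1 := by simp
    rw [h3]
    exact Real.rpow_le_one_of_one_le_of_nonpos hT (by linarith)
  · intro i σ
    fin_cases i
    · exact hc1 0 σ
    · exact hc2 0 σ
  · intro i j hij
    have h0 : (F2 0).eval (t : 𝓞 ℚ) = t := eval_X
    have h2 : (F2 1).eval (t : 𝓞 ℚ) = t + 1 := by
      show (X + 1 : (𝓞 ℚ)[X]).eval (t : 𝓞 ℚ) = t + 1
      simp
    have h3 : IsCoprime ((F2 0).eval (t : 𝓞 ℚ)) ((F2 1).eval (t : 𝓞 ℚ)) := by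
      rw [h0, h2]
      exact ⟨-1, 1, by ring⟩
    fin_cases i <;> fin_cases j
    · exact absurd rfl hij
    · exact h3
    · exact h3.symm
    · exact absurd rfl hij
  · intro k
    fin_cases k <;> simp [b3]
  · intro k σ
    refine le_trans (le_of_eq ?_) h1
    fin_cases k <;> simp [b3]
  · intro k
    refine le_trans ?_ h1
    rw [Fin.sum_univ_two]
    fin_cases k <;> simp [e32]

lemma unequal_eq : unequal e32 = Finset.univ := by
  unfold Pool.Agent.Results.MP_a793bb_nt.SmallDigitPoints.unequal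
  apply Finset.filter_true_of_mem
  intro i _
  fin_cases i <;> simp [e32]

lemma point_eq (t : ℕ) : point (t : 𝓞 ℚ) F2 b3 e32 = ![(t : 𝓞 ℚ), -((t : 𝓞 ℚ) + 1), 1] := by
  have h0 : (F2 0).eval (t : 𝓞 ℚ) = t := eval_X
  have h2 : (F2 1).eval (t : 𝓞 ℚ) = t + 1 := by
    show (X + 1 : (𝓞 ℚ)[X]).eval (t : 𝓞 ℚ) = t + 1
    simp
  funext k
  unfold Pool.Agent.Results.MP_a793bb_nt.SmallDigitPoints.point
  rw [Fin.prod_univ_two, h0, h2]
  fin_cases k <;> simp [b3, e32]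

instance : IsPrincipalIdealRing (𝓞 ℚ) :=
  IsPrincipalIdealRing.of_surjective (Rat.ringOfIntegersEquiv.symm : ℤ →+* 𝓞 ℚ)
    Rat.ringOfIntegersEquiv.symm.surjective

lemma squarefree_span {x : 𝓞 ℚ} (h : Squarefree x) : Squarefree (Ideal.span {x}) := by
  intro J hJ
  obtain ⟨g, rfl⟩ := (IsPrincipalIdealRing.principal J).principal
  have h1 : Ideal.span {g} * Ideal.span {g} ∣ Ideal.span {x} := hJ
  rw [Ideal.span_singleton_mul_span_singleton, Ideal.dvd_span_singleton,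
    Ideal.mem_span_singleton] at h1
  have h2 := h g h1
  exact Ideal.isUnit_iff.2 (Ideal.span_singleton_eq_top.2 h2)

lemma squarefree_nat {m : ℕ} (h : Squarefree m) : Squarefree (m : 𝓞 ℚ) := by
  have h1 : Squarefree (m : ℤ) := Int.squarefree_natCast.2 h
  intro g hg
  have h2 : Rat.ringOfIntegersEquiv g * Rat.ringOfIntegersEquiv g ∣ (m : ℤ) := by
    obtain ⟨c, hc⟩ := hg
    refine ⟨Rat.ringOfIntegersEquiv c, ?_⟩
    rw [← map_mul, ← map_mul, ← hc, map_natCast]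
  exact (MulEquiv.isUnit_map Rat.ringOfIntegersEquiv).1 (h1 _ h2)

lemma squarefree (t : ℕ) (h : Squarefree (t * (t + 1))) :
    Squarefree (Ideal.span {∏ i ∈ unequal e32, (F2 i).eval (t : 𝓞 ℚ)}) := by
  rw [unequal_eq, Fin.prod_univ_two]
  have h0 : (F2 0).eval (t : 𝓞 ℚ) = t := eval_X
  have h2 : (F2 1).eval (t : 𝓞 ℚ) = t + 1 := by
    show (X + 1 : (𝓞 ℚ)[X]).eval (t : 𝓞 ℚ) = t + 1
    simp
  rw [h0, h2]
  apply squarefree_span
  have := squarefree_nat h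
  push_cast at this
  exact this

/-- For all large `X` there are at least `X / 200` numbers `t` between `B` and `X` such that
`t (t + 1)` is squarefree. -/
theorem many_t (B : ℝ) : ∃ X₀ : ℝ, 1 ≤ X₀ ∧ ∀ X : ℝ, X₀ ≤ X → ∃ s : Finset ℕ,
    X / 200 ≤ s.card ∧ ∀ t ∈ s, B ≤ t ∧ (t : ℝ) ≤ X ∧ Squarefree (t * (t + 1)) := by
  classical
  refine ⟨max (36 * 10002) (8000 * |B|), le_max_of_le_left (by norm_num), ?_⟩
  intro X hX
  have hX1 : (36 * 10002 : ℝ) ≤ X := (le_max_left _ _).trans hX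
  have hX2 : 8000 * |B| ≤ X := (le_max_right _ _).trans hX
  obtain ⟨M, hM⟩ : ∃ M : ℕ, M = ⌊X / 36⌋₊ := ⟨_, rfl⟩
  have hM1 : (M : ℝ) ≤ X / 36 := by rw [hM]; exact Nat.floor_le (by positivity)
  have hM2 : X / 36 < M + 1 := by rw [hM]; exact Nat.lt_floor_add_one _
  have hM3 : 10000 ≤ M := by
    have : (10000 : ℝ) < M := by linarith
    exact_mod_cast this.le
  have h1 := many M hM3
  obtain ⟨s, hs⟩ : ∃ s, s = (Finset.range M).filter fun m =>
    Squarefree ((36 * m + 1) * (36 * m + 2)) := ⟨_, rfl⟩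
  rw [← hs] at h1
  obtain ⟨s1, hs1⟩ : ∃ s1, s1 = s.image fun m => 36 * m + 1 := ⟨_, rfl⟩
  have hc1 : s1.card = s.card := by
    rw [hs1]
    apply Finset.card_image_of_injective
    intro x y hxy
    have : 36 * x + 1 = 36 * y + 1 := hxy
    omega
  obtain ⟨s2, hs2⟩ : ∃ s2, s2 = s1 \ Finset.range ⌈|B|⌉₊ := ⟨_, rfl⟩
  have hc2 : s1.card ≤ s2.card + ⌈|B|⌉₊ := by
    have h3 := Finset.le_card_sdiff (Finset.range ⌈|B|⌉₊) s1
    rw [Finset.card_range, ← hs2] at h3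
    omega
  refine ⟨s2, ?_, ?_⟩
  · have h4 : (s1.card : ℝ) ≤ s2.card + ⌈|B|⌉₊ := by exact_mod_cast hc2
    have h5 : (⌈|B|⌉₊ : ℝ) < |B| + 1 := Nat.ceil_lt_add_one (abs_nonneg B)
    rw [hc1] at h4
    linarith
  · intro t ht
    rw [hs2, Finset.mem_sdiff, Finset.mem_range, not_lt, hs1, Finset.mem_image] at ht
    obtain ⟨⟨m, hm, rfl⟩, hB⟩ := ht
    rw [hs, Finset.mem_filter, Finset.mem_range] at hm
    refine ⟨?_, ?_, hm.2⟩
    · exact (le_abs_self B).trans (Nat.ceil_le.1 hB)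
    · have h6 : ((m + 1 : ℕ) : ℝ) ≤ M := by exact_mod_cast hm.1
      push_cast at h6 ⊢
      linarith

end Pool.Agent.Q128.SDF
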