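import Mathlib
import Pool.Agent.Q128.SDF.Fam
import Pool.Agent.Q103.Old.SmallDigitPoints_71c16a

/-!
# Many rational points composed of numbers with small digits
-/

set_option autoImplicit false

namespace Pool.Agent.Q128.SDF

open Polynomial NumberField Height
open Pool.Agent.Results.MP_a793bb_nt.SmallDigitPoints (Small point unequal logN)
open Pool.Agent.Results.MP_71c16a_nt.SmallDigitPoints (Belongs Composed)

/-- the denominator of the point of the line belonging to `(t : -(t + 1) : 1)` -/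
def W (a : Fin 3 → ℚ) (t : ℚ) : ℚ := t * (a 1 - a 0) + (a 1 - a 2)

/-- the point of the line belonging to `(t : -(t + 1) : 1)` -/
def xp (a : Fin 3 → ℚ) (t : ℚ) : ℚ := a 0 + t * (a 2 - a 0) * (a 1 - a 0) / W a t

lemma W_ne_zero (a : Fin 3 → ℚ) (ha : Function.Injective a) {t : ℚ}
    (ht : |(a 2 - a 1) / (a 1 - a 0)| < t) : W a t ≠ 0 := by
  have h : a 1 - a 0 ≠ 0 := sub_ne_zero.2 fun h => absurd (ha h) (by decide)
  intro h1
  unfold W at h1
  have h2 : t = (a 2 - a 1) / (a 1 - a 0) := by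
    field_simp
    linarith
  rw [← h2] at ht
  exact absurd (le_abs_self t) (not_le.2 ht)

lemma belongs (a : Fin 3 → ℚ) (ha : Function.Injective a) {t : ℕ} (hW : W a t ≠ 0) :
    Belongs a (point (t : 𝓞 ℚ) F2 b3 e32) (xp a t) := by
  have h10 : a 1 - a 0 ≠ 0 := sub_ne_zero.2 fun h => absurd (ha h) (by decide)
  have h20 : a 2 - a 0 ≠ 0 := sub_ne_zero.2 fun h => absurd (ha h) (by decide)
  have h12 : a 1 - a 2 ≠ 0 := sub_ne_zero.2 fun h => absurd (ha h) (by decide)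
  refine ⟨W a t / ((a 1 - a 2) * (a 2 - a 0) * (a 1 - a 0)), ?_, ?_⟩
  · positivity
  · rw [point_eq]
    intro j
    fin_cases j
    · show (((t : 𝓞 ℚ)) : ℚ) = W a t / ((a 1 - a 2) * (a 2 - a 0) * (a 1 - a 0)) *
        ((a 1 : ℚ) - (a 2 : ℚ)) * (xp a t - (a 0 : ℚ))
      unfold xp
      have : ((t : 𝓞 ℚ) : ℚ) = t := by simp
      rw [this]
      field_simp
      ring
    · show ((-((t : 𝓞 ℚ) + 1) : 𝓞 ℚ) : ℚ) = W a t / ((a 1 - a 2) * (a 2 - a 0) * (a 1 - a 0)) *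
        ((a 2 : ℚ) - (a 0 : ℚ)) * (xp a t - (a 1 : ℚ))
      unfold xp
      have : ((-((t : 𝓞 ℚ) + 1) : 𝓞 ℚ) : ℚ) = -(t + 1) := by simp
      rw [this]
      field_simp
      unfold W
      ring
    · show (((1 : 𝓞 ℚ)) : ℚ) = W a t / ((a 1 - a 2) * (a 2 - a 0) * (a 1 - a 0)) *
        ((a 0 : ℚ) - (a 1 : ℚ)) * (xp a t - (a 2 : ℚ))
      unfold xp
      have : ((1 : 𝓞 ℚ) : ℚ) = 1 := by simp
      rw [this]
      field_simp
      unfold W
      ring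

lemma composed (a : Fin 3 → ℚ) (ha : Function.Injective a) {D : ℕ} (hD : 2 ≤ D) {δ T : ℝ}
    (hδ : 0 < δ) (hT : 1 ≤ T) {t : ℕ} (ht : T ≤ t) (hsq : Squarefree (t * (t + 1)))
    (hW : W a t ≠ 0) : Composed a D δ T (t : 𝓞 ℚ) (xp a t) := by
  refine ⟨2, F2, b3, e32, small t hD hδ hT ht, ?_, squarefree t hsq, belongs a ha hW⟩
  rw [unequal_eq]
  exact Finset.univ_nonempty

lemma xp_ne (a : Fin 3 → ℚ) (ha : Function.Injective a) {t : ℕ} (ht : t ≠ 0) (hW : W a t ≠ 0)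
    (j : Fin 3) : xp a t ≠ (a j : ℚ) := by
  obtain ⟨s, hs, h⟩ := belongs a ha hW
  intro hj
  have h1 := h j
  have h0 : xp a t - ((a j : ℚ) : ℚ) = 0 := sub_eq_zero.2 hj
  have h0' : (point (t : 𝓞 ℚ) F2 b3 e32 j : ℚ) = 0 := by
    rw [h1]
    exact mul_eq_zero_of_right _ h0
  rw [point_eq] at h0'
  clear h1
  have h1 := h0'
  fin_cases j
  · have h2 : ((t : 𝓞 ℚ) : ℚ) = 0 := h1
    simp at h2
    exact ht h2
  · have h2 : ((-((t : 𝓞 ℚ) + 1) : 𝓞 ℚ) : ℚ) = 0 := h1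
    have h3 : ((-((t : 𝓞 ℚ) + 1) : 𝓞 ℚ) : ℚ) = -(t + 1) := by simp
    rw [h3] at h2
    have h4 : (0 : ℚ) ≤ t := Nat.cast_nonneg _
    linarith
  · have h2 : ((1 : 𝓞 ℚ) : ℚ) = 0 := h1
    simp at h2

lemma mob_xp (a : Fin 3 → ℚ) (ha : Function.Injective a) {t : ℕ} (ht : t ≠ 0) (hW : W a t ≠ 0) :
    Pool.Agent.W223.AC.mob a (xp a t) = -(t : ℚ) := by
  have h10 : a 1 - a 0 ≠ 0 := sub_ne_zero.2 fun h => absurd (ha h) (by decide)
  have h20 : a 2 - a 0 ≠ 0 := sub_ne_zero.2 fun h => absurd (ha h) (by decide)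
  have h12 : a 1 - a 2 ≠ 0 := sub_ne_zero.2 fun h => absurd (ha h) (by decide)
  have h2 : xp a t - a 2 ≠ 0 := sub_ne_zero.2 (xp_ne a ha ht hW 2)
  show ((xp a t - a 0) * (a 1 - a 2)) / ((xp a t - a 2) * (a 1 - a 0)) = -(t : ℚ)
  rw [div_eq_iff (mul_ne_zero h2 h10)]
  unfold xp
  field_simp
  unfold W
  ring

/-- Many rational numbers `x` are composed of numbers with small digits. -/
theorem many_x (a : Fin 3 → ℚ) (ha : Function.Injective a) :
    ∃ c : ℝ, 0 < c ∧ ∀ (D : ℕ) (δ T : ℝ), 2 ≤ D → 0 < δ → 1 ≤ T → ∃ X₀ : ℝ, ∀ B : ℝ, X₀ ≤ B →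
      ∃ E : Finset ℚ, c * B ≤ E.card ∧ ∀ x ∈ E, logHeight₁ x ≤ Real.log B ∧
        ∃ t : 𝓞 ℚ, Composed a D δ T t x := by
  classical
  obtain ⟨C, hC, hmob⟩ := Pool.Agent.Q103.SDV.height_mob a ha
  refine ⟨Real.exp (-C) / 200, by positivity, ?_⟩
  intro D δ T hD hδ hT
  obtain ⟨B₀, hB₀⟩ : ∃ B₀ : ℝ, B₀ = max T ((|(a 2 - a 1) / (a 1 - a 0)| : ℚ) + 1) := ⟨_, rfl⟩
  obtain ⟨X₁, hX₁, hmany⟩ := many_t B₀
  refine ⟨X₁ * Real.exp C, ?_⟩
  intro B hB
  have hB1 : X₁ ≤ B * Real.exp (-C) := by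
    rw [Real.exp_neg, ← div_eq_mul_inv, le_div_iff₀ (Real.exp_pos C)]
    exact hB
  obtain ⟨s, hs1, hs2⟩ := hmany _ hB1
  have hW : ∀ t ∈ s, T ≤ t ∧ t ≠ 0 ∧ W a t ≠ 0 ∧ (t : ℝ) ≤ B * Real.exp (-C) ∧
      Squarefree (t * (t + 1)) := by
    intro t ht
    obtain ⟨h1, h2, h3⟩ := hs2 t ht
    have h4 : T ≤ t := by
      refine le_trans ?_ h1
      rw [hB₀]
      exact le_max_left _ _
    have h5 : ((|(a 2 - a 1) / (a 1 - a 0)| : ℚ) : ℝ) + 1 ≤ t := by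
      refine le_trans ?_ h1
      rw [hB₀]
      exact le_max_right _ _
    refine ⟨h4, ?_, W_ne_zero a ha ?_, h2, h3⟩
    · rintro rfl
      push_cast at h4
      linarith
    · have h6 : ((|(a 2 - a 1) / (a 1 - a 0)| : ℚ) : ℝ) < ((t : ℚ) : ℝ) := by
        push_cast at h5 ⊢
        linarith
      exact_mod_cast h6
  refine ⟨s.image fun t : ℕ => xp a (t : ℚ), ?_, ?_⟩
  · rw [Finset.card_image_of_injOn]
    · calc Real.exp (-C) / 200 * B = B * Real.exp (-C) / 200 := by ring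
        _ ≤ s.card := hs1
    · intro t ht t' ht' htt
      obtain ⟨-, h1, h2, -⟩ := hW t ht
      obtain ⟨-, h3, h4, -⟩ := hW t' ht'
      have h5 := mob_xp a ha h1 h2
      have h6 := mob_xp a ha h3 h4
      have h7 : xp a t = xp a t' := htt
      rw [h7, h6] at h5
      have h8 : (t' : ℚ) = t := neg_injective h5
      exact_mod_cast h8.symm
  · intro x hx
    rw [Finset.mem_image] at hx
    obtain ⟨t, ht, rfl⟩ := hx
    obtain ⟨h1, h2, h3, h4, h5⟩ := hW t ht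
    refine ⟨?_, (t : 𝓞 ℚ), composed a ha hD hδ hT h1 h5 h3⟩
    have h6 := (hmob ℚ (xp a t) (xp_ne a ha h2 h3)).1
    rw [mob_xp a ha h2 h3, logHeight₁_neg, Module.finrank_self, Nat.cast_one, one_mul] at h6
    have h7 : logHeight₁ (t : ℚ) = Real.log t := by
      have : NeZero t := ⟨h2⟩
      rw [logHeight₁_eq_log_mulHeight₁, Rat.mulHeight₁_natCast]
    rw [h7] at h6
    have h8 : (0 : ℝ) < t := by exact_mod_cast Nat.pos_of_ne_zero h2
    have h9 := Real.log_le_log h8 h4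
    have hB0 : B ≠ 0 := by
      rintro rfl
      rw [zero_mul] at h4
      linarith
    rw [Real.log_mul hB0 (Real.exp_pos _).ne', Real.log_exp] at h9
    linarith

end Pool.Agent.Q128.SDF
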