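import Mathlib
import Pool.Agent.Q103.SDJ.Core
import Pool.Agent.Q103.Old.SmallDigitPoints_71c16a

/-!
# The truncated inequality on the line at the points composed of numbers with small digits
-/

set_option autoImplicit false

namespace Pool.Agent.Q128.SDF

open IsDedekindDomain NumberField Height
open scoped Polynomial
open Pool.Agent.W223.VD (cnt)
open Pool.Agent.W223.AC (pt mob)
open Pool.Agent.W223.CV
open Pool.Agent.Q103.SDV (Bad)
open Pool.Agent.Q103.SDJ (Compo lN)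
open Pool.Agent.Results.MP_a793bb_nt.SmallDigitPoints (Small point unequal logN)
open Pool.Agent.Results.MP_71c16a_nt.SmallDigitPoints (Belongs Composed)

lemma small_mono {K : Type} [Field K] [NumberField K] {D : ℕ} {δ δ' T : ℝ} (hT : 1 ≤ T)
    (hδ : δ' ≤ δ) {n : ℕ} {t : 𝓞 K} {F : Fin n → (𝓞 K)[X]} {b : Fin 3 → 𝓞 K}
    {e : Fin 3 → Fin n → ℕ} (h : Small D δ' T t F b e) : Small D δ T t F b e := by
  have h1 : T ^ δ' ≤ T ^ δ := Real.rpow_le_rpow_of_exponent_le hT hδ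
  have h2 : T ^ (-δ) ≤ T ^ (-δ') := Real.rpow_le_rpow_of_exponent_le hT (by linarith)
  exact ⟨h.base, h.two_digits, h.number, fun i j σ => (h.digits i j σ).trans h1,
    fun i σ => h2.trans (h.first i σ), h.last, h.coprime, h.ne_zero,
    fun k σ => (h.coefficients k σ).trans h1, fun k => (h.exponents k).trans h1⟩

lemma compo_mono {K : Type} [Field K] [NumberField K] {D : ℕ} {δ δ' T : ℝ} (hT : 1 ≤ T)
    (hδ : δ' ≤ δ) {t : 𝓞 K} {P : Fin 3 → 𝓞 K} (h : Compo D δ' T t P) : Compo D δ T t P := by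
  obtain ⟨n, F, b, e, h1, h2, h3, h4⟩ := h
  exact ⟨n, F, b, e, small_mono hT hδ h1, h2, h3, h4⟩

lemma composed_compo {K : Type} [Field K] [NumberField K] {a : Fin 3 → ℚ} {D : ℕ} {δ T : ℝ}
    {t : 𝓞 K} {x : K} (h : Composed a D δ T t x) :
    ∃ P : Fin 3 → 𝓞 K, Compo D δ T t P ∧ Belongs a P x := by
  obtain ⟨n, F, b, e, h1, h2, h3, h4⟩ := h
  exact ⟨_, ⟨n, F, b, e, h1, h2, h3, rfl⟩, h4⟩

lemma belongs_sum {K : Type} [Field K] [NumberField K] {a : Fin 3 → ℚ}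
    {P : Fin 3 → 𝓞 K} {x : K} (h : Belongs a P x) : P 0 + P 1 + P 2 = 0 := by
  obtain ⟨s, hs0, hs⟩ := h
  have e0 := hs 0
  have e1 := hs 1
  have e2 := hs 2
  have i01 : (0 : Fin 3) + 1 = 1 := rfl
  have i02 : (0 : Fin 3) + 2 = 2 := rfl
  have i11 : (1 : Fin 3) + 1 = 2 := rfl
  have i12 : (1 : Fin 3) + 2 = 0 := rfl
  have i21 : (2 : Fin 3) + 1 = 0 := rfl
  have i22 : (2 : Fin 3) + 2 = 1 := rfl
  rw [i01, i02] at e0
  rw [i11, i12] at e1
  rw [i21, i22] at e2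
  have hsumK : (P 0 : K) + P 1 + P 2 = 0 := by
    rw [e0, e1, e2]
    ring
  apply RingOfIntegers.coe_injective
  push_cast
  exact hsumK

lemma belongs_ne {K : Type} [Field K] [NumberField K] {a : Fin 3 → ℚ} (ha : Function.Injective a)
    {P : Fin 3 → 𝓞 K} {x : K} (h : Belongs a P x) : ∃ k, P k ≠ 0 := by
  obtain ⟨s, hs0, hs⟩ := h
  by_contra hcon
  push Not at hcon
  have hne : ∀ i j : Fin 3, i ≠ j → (a i : K) - (a j : K) ≠ 0 := fun i j hij =>
    sub_ne_zero.2 fun h => hij (ha (by exact_mod_cast h))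
  have h0 : x - (a 0 : K) = 0 := by
    have h1 := hs 0
    rw [hcon 0] at h1
    have h2 : s * ((a (0 + 1) : K) - (a (0 + 2) : K)) * (x - (a 0 : K)) = 0 := by
      rw [← h1]
      rfl
    exact (mul_eq_zero.mp h2).resolve_left (mul_ne_zero hs0 (hne _ _ (by decide)))
  have h1 : x - (a 1 : K) = 0 := by
    have h1 := hs 1
    rw [hcon 1] at h1
    have h2 : s * ((a (1 + 1) : K) - (a (1 + 2) : K)) * (x - (a 1 : K)) = 0 := by
      rw [← h1]
      rfl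
    exact (mul_eq_zero.mp h2).resolve_left (mul_ne_zero hs0 (hne _ _ (by decide)))
  exact hne 1 0 (by decide) (by linear_combination h0 - h1)

/-- **The truncated inequality on the line.** -/
theorem line (a : Fin 3 → ℚ) (ha : Function.Injective a) (D : ℕ) (ε : ℝ) (hε : 0 < ε) :
    ∃ δ : ℝ, 0 < δ ∧ ∃ T₀ : ℝ, 1 ≤ T₀ ∧ ∀ T : ℝ, T₀ ≤ T →
    ∀ (K : Type) [Field K] [NumberField K] (t : 𝓞 K) (P : Fin 3 → 𝓞 K) (x : K),
      Compo D δ T t P → Belongs a P x →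
      (∀ j, x ≠ (a j : K)) ∧ (∀ k, P k ≠ 0) ∧ Module.finrank ℚ K * Real.log T ≤ lN t ∧
      logHeight₁ x + (1 - ε) * lN t ≤ cnt ∅ (fun j => pt (a j)) x ∧
      (1 - ε) * lN t ≤ 2 * logHeight₁ x := by
  obtain ⟨η, hη⟩ : ∃ η, η = min ε 1 / 2 := ⟨_, rfl⟩
  have hη0 : 0 < η := by rw [hη]; positivity
  have hηε : η ≤ ε / 2 := by
    rw [hη]
    have := min_le_left ε 1
    linarith
  have hη1 : η < 1 := by
    rw [hη]
    have := min_le_right ε 1
    linarith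
  obtain ⟨C₁, hC₁, hmob⟩ := Pool.Agent.Q103.SDV.height_mob a ha
  obtain ⟨C₃, hC₃⟩ : ∃ C₃ : ℝ, C₃ = ∑ p ∈ (Pool.Agent.W337.AC.MOBC.MM a ∅).primeFactors,
    Real.log p := ⟨_, rfl⟩
  have hC₃0 : 0 ≤ C₃ := by
    rw [hC₃]
    exact Finset.sum_nonneg fun p hp => Real.log_nonneg (by
      exact_mod_cast (Nat.prime_of_mem_primeFactors hp).one_lt.le)
  obtain ⟨δ, hδ, T₁, hT₁, hmain⟩ := Pool.Agent.Q103.SDJ.abc D η hη0 hη1
  obtain ⟨B, hB⟩ : ∃ B : ℝ, B = (2 * C₁ + C₃ + Real.log 2) * (2 / ε) := ⟨_, rfl⟩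
  refine ⟨δ, hδ, max T₁ (Real.exp B), hT₁.trans (le_max_left _ _), ?_⟩
  intro T hT K _ _ t P x hc hbel
  have hTT : T₁ ≤ T := (le_max_left _ _).trans hT
  have hT0 : 1 ≤ T := hT₁.trans hTT
  have hlogT : B ≤ Real.log T := by
    have h1 := Real.log_le_log (Real.exp_pos B) ((le_max_right T₁ _).trans hT)
    rwa [Real.log_exp] at h1
  have hsum := belongs_sum hbel
  obtain ⟨hP0, hNt, hm2⟩ := hmain T hTT K t P hc hsum (belongs_ne ha hbel)
  have hPK : ∀ k, (P k : K) ≠ 0 := fun k => RingOfIntegers.coe_ne_zero_iff.mpr (hP0 k)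
  obtain ⟨s, hs0, hs⟩ := hbel
  have hxa : ∀ j, x ≠ (a j : K) := by
    intro j hj
    apply hPK j
    rw [hs j, hj, sub_self, mul_zero]
  have hne : ∀ i j : Fin 3, i ≠ j → (a i : K) - (a j : K) ≠ 0 := fun i j hij =>
    sub_ne_zero.2 fun h => hij (ha (by exact_mod_cast h))
  have hm : mob a x * (P 2 : K) = -(P 0 : K) := by
    have h1 := sub_ne_zero.2 (hxa 2)
    have h2 := hne 1 0 (by decide)
    have e0 : (P 0 : K) = s * ((a 1 : K) - (a 2 : K)) * (x - (a 0 : K)) := hs 0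
    have e2 : (P 2 : K) = s * ((a 0 : K) - (a 1 : K)) * (x - (a 2 : K)) := hs 2
    rw [e0, e2]
    unfold Pool.Agent.W223.AC.mob
    field_simp
    ring
  have k1 := Pool.Agent.Q103.SDV.rad_le a ha ∅ (by simp) x hxa P hP0 hsum hm
  have k2 := Pool.Agent.Q103.SDV.rad_le_height P hP0 hsum _ hm
  have k3 := Pool.Agent.Q103.SDV.log_mob_le P hP0 _ hm
  obtain ⟨k4, k5⟩ := hmob K x hxa
  rw [← hC₃] at k1
  have hd : (0 : ℝ) < Module.finrank ℚ K := by exact_mod_cast Module.finrank_pos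
  obtain ⟨d, hdd⟩ : ∃ d : ℝ, d = Module.finrank ℚ K := ⟨_, rfl⟩
  rw [← hdd] at hd hNt k1 k2 k4 k5
  have hlog2 : 0 ≤ Real.log 2 := Real.log_nonneg (by norm_num)
  have hB1 : 2 * C₁ + C₃ + Real.log 2 ≤ ε / 2 * Real.log T := by
    calc 2 * C₁ + C₃ + Real.log 2 = ε / 2 * B := by
          rw [hB]
          field_simp
      _ ≤ ε / 2 * Real.log T := mul_le_mul_of_nonneg_left hlogT (by positivity)
  have hB2 : d * (2 * C₁ + C₃ + Real.log 2) ≤ ε / 2 * lN t := by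
    calc d * (2 * C₁ + C₃ + Real.log 2) ≤ d * (ε / 2 * Real.log T) :=
          mul_le_mul_of_nonneg_left hB1 hd.le
      _ = ε / 2 * (d * Real.log T) := by ring
      _ ≤ ε / 2 * lN t := mul_le_mul_of_nonneg_left hNt (by positivity)
  have hlT : 0 ≤ Real.log T := Real.log_nonneg hT0
  have hlN : 0 ≤ lN t := le_trans (mul_nonneg hd.le hlT) hNt
  have hη2 : η * lN t ≤ ε / 2 * lN t := mul_le_mul_of_nonneg_right hηε hlN
  have p1 : 0 ≤ d * C₁ := mul_nonneg hd.le hC₁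
  have p2 : 0 ≤ d * C₃ := mul_nonneg hd.le hC₃0
  have p3 : 0 ≤ d * Real.log 2 := mul_nonneg hd.le hlog2
  refine ⟨hxa, hP0, by rw [← hdd]; exact hNt, ?_, ?_⟩
  · nlinarith
  · nlinarith

end Pool.Agent.Q128.SDF
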