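import Mathlib
import Pool.Agent.Q128.SDF.Line

/-!
# Local intersection numbers of a point of the line and the valuations of the coordinates belonging
to it
-/

set_option autoImplicit false

namespace Pool.Agent.Q128.SDF

open IsDedekindDomain NumberField Height
open scoped Polynomial
open Pool.Agent.W223.VD (cnt)
open Pool.Agent.W223.AC (pt mob not_mem_of_dvd)
open Pool.Agent.W223.CV
open Pool.Agent.W337.AC.MOBC
open Pool.Agent.Q103.SDV (Bad)
open Pool.Agent.Results.MP_71c16a_nt.SmallDigitPoints (Belongs)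

variable {K : Type} [Field K] [NumberField K]

lemma lin_val (a : ℚ) (x : K) (v : HeightOneSpectrum (𝓞 K))
    (hv : ((a.den : ℕ) : 𝓞 K) ∉ v.asIdeal) :
    v.valuation K (lin (pt a) x) = v.valuation K (x - (a : K)) := by
  have hd := Pool.Agent.W223.AC.val_nat_eq_one v _ hv
  have hd0 : (a.den : K) ≠ 0 := by exact_mod_cast a.den_nz
  have hlin : lin (pt a) x = -((a.den : K) * (x - (a : K))) := by
    unfold lin pt
    have : (a : K) = (a.num : K) / (a.den : K) := by
      exact_mod_cast Rat.cast_def (K := K) a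
    rw [this]
    field_simp
    push_cast
    ring
  rw [hlin, Valuation.map_neg, map_mul, hd, one_mul]

/-- two of the numbers `x - a_j` are not both small -/
lemma max_eq (a : Fin 3 → ℚ) (x : K) (v : HeightOneSpectrum (𝓞 K))
    (hv : ((MM a ∅ : ℕ) : 𝓞 K) ∉ v.asIdeal) {i j : Fin 3} (hij : i ≠ j) :
    max (v.valuation K (x - (a i : K))) (v.valuation K (x - (a j : K))) =
      max (v.valuation K x) 1 := by
  have hden : ∀ i, (((a i).den : ℕ) : 𝓞 K) ∉ v.asIdeal := fun i =>
    not_mem_of_dvd (MM_den a ∅ i) hv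
  apply le_antisymm
  · exact max_le (sub_le (a i) x v (hden i)) (sub_le (a j) x v (hden j))
  · have h1 : v.valuation K ((a i : K) - (a j : K)) = 1 := val_diff a ∅ hv hij
    have h2 : (a i : K) - (a j : K) = (x - (a j : K)) - (x - (a i : K)) := by ring
    have h3 : 1 ≤ max (v.valuation K (x - (a i : K))) (v.valuation K (x - (a j : K))) := by
      rw [← h1, h2, max_comm]
      exact Valuation.map_sub _ _ _
    apply max_le _ h3
    have h4 : v.valuation K x ≤ max (v.valuation K (x - (a i : K))) 1 := by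
      have h5 : x = (x - (a i : K)) + (a i : K) := by ring
      conv_lhs => rw [h5]
      exact (Valuation.map_add _ _ _).trans (max_le_max le_rfl (val_rat_le v (a i) (hden i)))
    exact h4.trans (max_le (le_max_left _ _) h3)

lemma belongs_val {a : Fin 3 → ℚ} {P : Fin 3 → 𝓞 K} {x : K} (h : Belongs a P x)
    (v : HeightOneSpectrum (𝓞 K)) (hv : ((MM a ∅ : ℕ) : 𝓞 K) ∉ v.asIdeal) :
    ∃ s : K, s ≠ 0 ∧ ∀ j, v.valuation K (P j : K) =
      v.valuation K s * v.valuation K (x - (a j : K)) := by
  obtain ⟨s, hs, h⟩ := h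
  refine ⟨s, hs, fun j => ?_⟩
  have h1 : v.valuation K ((a (j + 1) : K) - (a (j + 2) : K)) = 1 := by
    apply val_diff a ∅ hv
    fin_cases j <;> decide
  rw [h j, map_mul, map_mul, h1, mul_one]

/-- a prime at which `x` meets `a_j` -/
lemma near_bad {a : Fin 3 → ℚ} {P : Fin 3 → 𝓞 K} {x : K} (h : Belongs a P x)
    (v : HeightOneSpectrum (𝓞 K)) (hv : ((MM a ∅ : ℕ) : 𝓞 K) ∉ v.asIdeal) {j : Fin 3}
    (hn : Near (pt (a j)) x v) : Bad P v := by
  have hden : ∀ i, (((a i).den : ℕ) : 𝓞 K) ∉ v.asIdeal := fun i =>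
    not_mem_of_dvd (MM_den a ∅ i) hv
  obtain ⟨s, hs, h1⟩ := belongs_val h v hv
  have hn' : v.valuation K (x - (a j : K)) < max (v.valuation K x) 1 := by
    rw [← lin_val (a j) x v (hden j)]
    exact hn
  have h2 : j ≠ j + 1 := by fin_cases j <;> decide
  have h3 := max_eq a x v hv h2
  have h4 : v.valuation K (x - (a (j + 1) : K)) = max (v.valuation K x) 1 := by
    rcases max_choice (v.valuation K (x - (a j : K))) (v.valuation K (x - (a (j + 1) : K))) with
      h5 | h5
    · rw [h5] at h3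
      exact absurd hn' (by rw [h3]; exact lt_irrefl _)
    · rw [h5] at h3
      exact h3
  refine ⟨j, j + 1, ?_⟩
  rw [h1, h1, h4]
  have hs' : 0 < v.valuation K s := zero_lt_iff.2 ((Valuation.ne_zero_iff _).2 hs)
  exact (mul_lt_mul_of_pos_left hn' hs').ne

/-- the local intersection numbers if one coordinate is a unit -/
lemma lin_of_unit {a : Fin 3 → ℚ} {P : Fin 3 → 𝓞 K} {x : K} (h : Belongs a P x)
    (v : HeightOneSpectrum (𝓞 K)) (hv : ((MM a ∅ : ℕ) : 𝓞 K) ∉ v.asIdeal)
    (h2 : v.valuation K (P 2 : K) = 1) (j : Fin 3) :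
    v.valuation K (lin (pt (a j)) x) = max (v.valuation K x) 1 * v.valuation K (P j : K) := by
  have hden : ∀ i, (((a i).den : ℕ) : 𝓞 K) ∉ v.asIdeal := fun i =>
    not_mem_of_dvd (MM_den a ∅ i) hv
  obtain ⟨s, hs, h1⟩ := belongs_val h v hv
  have h3 := max_eq a x v hv (show (0 : Fin 3) ≠ 2 by decide)
  have h4 : v.valuation K s * max (v.valuation K x) 1 = 1 := by
    rw [← h3]
    rcases le_total (v.valuation K (x - (a 0 : K))) (v.valuation K (x - (a 2 : K))) with h5 | h5
    · rw [max_eq_right h5, ← h1, h2]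
    · rw [max_eq_left h5]
      apply le_antisymm
      · rw [← h1]
        exact v.valuation_le_one (K := K) (P 0)
      · rw [← h2, h1]
        exact mul_le_mul_right h5 _
  rw [lin_val (a j) x v (hden j), h1 j, ← mul_assoc, mul_comm (max _ _), h4, one_mul]

end Pool.Agent.Q128.SDF
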