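import Mathlib
import Pool.Agent.Q128.SDF.Val

/-!
# Truncated counting functions of a grid and of its two parts
-/

set_option autoImplicit false

namespace Pool.Agent.Q128.SDF

open IsDedekindDomain NumberField Height
open scoped Polynomial
open Pool.Agent.W223.VD (cnt)
open Pool.Agent.W223.AC (pt mob not_mem_of_dvd val_finite)
open Pool.Agent.W223.CV
open Pool.Agent.W337.AC.MOBC
open Pool.Agent.Q103.SDV (Bad)
open Pool.Agent.Q103.SDJ (Compo lN)
open Pool.Agent.Results.MP_a793bb_nt.SmallDigitPoints (Small point unequal logN)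
open Pool.Agent.Results.MP_71c16a_nt.SmallDigitPoints (Belongs)

variable {K : Type} [Field K] [NumberField K]

/-- the prime `v` meets one of the points -/
def Meets (a : Fin 3 → ℚ) (x : K) (v : HeightOneSpectrum (𝓞 K)) : Prop :=
  ∃ j ∈ Finset.univ, Near (pt (a j)) x v

lemma lin_ne {a : ℚ} {x : K} (h : x ≠ (a : K)) : lin (pt a) x ≠ 0 := by
  intro h2
  have h2' : (a.num : K) - x * (a.den : K) = 0 := by
    have h4 : ((a.num : ℤ) : K) - x * (((a.den : ℕ) : ℤ) : K) = 0 := h2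
    push_cast at h4
    exact h4
  apply h
  have hd0 : ((a.den : ℕ) : K) ≠ 0 := by exact_mod_cast a.den_nz
  have h3 : (a : K) = (a.num : K) / (a.den : K) := by exact_mod_cast Rat.cast_def (K := K) a
  rw [h3, eq_div_iff hd0]
  exact (sub_eq_zero.1 h2').symm

lemma meets_finite {a : Fin 3 → ℚ} {x : K} (h : ∀ j, x ≠ (a j : K)) :
    {v : HeightOneSpectrum (𝓞 K) | Meets a x v}.Finite := by
  have h1 : {v : HeightOneSpectrum (𝓞 K) | Meets a x v} = ⋃ j, {v | Near (pt (a j)) x v} := by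
    ext v
    simp [Meets]
  rw [h1]
  exact Set.finite_iUnion fun j => near_finite _ _ (lin_ne (h j))

/-- two sets of primes -/
lemma cc_two {A A' : HeightOneSpectrum (𝓞 K) → Prop}
    (hA : {v | A v}.Finite) (hA' : {v | A' v}.Finite) :
    cc ∅ A + cc ∅ A' ≤ cc ∅ (fun v => A v ∨ A' v) + cc ∅ (fun v => A v ∧ A' v) := by
  have f1 := ct_support ∅ hA
  have f2 := ct_support ∅ hA'
  have f3 := ct_support ∅ (A := fun v => A v ∨ A' v) (hA.union hA')
  have f4 := ct_support ∅ (A := fun v => A v ∧ A' v) (hA.subset fun v hv => hv.1)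
  unfold cc
  rw [← finsum_add_distrib f1 f2, ← finsum_add_distrib f3 f4]
  refine finsum_le_finsum' ?_ ?_ ?_
  · exact Set.Finite.subset (f1.union f2) (Function.support_add _ _)
  · exact Set.Finite.subset (f3.union f4) (Function.support_add _ _)
  · intro v
    have h0 : ∀ p ∈ (∅ : Finset ℕ), (p : 𝓞 K) ∉ v.asIdeal := by simp
    show ct ∅ A v + ct ∅ A' v ≤ ct ∅ (fun v => A v ∨ A' v) v + ct ∅ (fun v => A v ∧ A' v) v
    by_cases h1 : A v
    · by_cases h2 : A' v
      · rw [ct_pos ⟨h0, h1⟩, ct_pos ⟨h0, h2⟩, ct_pos (A := fun v => A v ∨ A' v) ⟨h0, Or.inl h1⟩,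
          ct_pos (A := fun v => A v ∧ A' v) ⟨h0, h1, h2⟩]
      · rw [ct_pos ⟨h0, h1⟩, ct_neg (A := A') fun h => h2 h.2,
          ct_pos (A := fun v => A v ∨ A' v) ⟨h0, Or.inl h1⟩,
          ct_neg (A := fun v => A v ∧ A' v) fun h => h2 h.2.2]
    · by_cases h2 : A' v
      · rw [ct_neg (A := A) fun h => h1 h.2, ct_pos ⟨h0, h2⟩,
          ct_pos (A := fun v => A v ∨ A' v) ⟨h0, Or.inr h2⟩,
          ct_neg (A := fun v => A v ∧ A' v) fun h => h1 h.2.1]
        linarith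
      · rw [ct_neg (A := A) fun h => h1 h.2, ct_neg (A := A') fun h => h2 h.2,
          ct_neg (A := fun v => A v ∨ A' v) fun h => h.2.elim h1 h2,
          ct_neg (A := fun v => A v ∧ A' v) fun h => h1 h.2.1]

/-- the primes at which a composed point is bad -/
lemma bad_prime {n : ℕ} {t : 𝓞 K} {F : Fin n → (𝓞 K)[X]} {b : Fin 3 → 𝓞 K}
    {e : Fin 3 → Fin n → ℕ} {v : HeightOneSpectrum (𝓞 K)} (h : Bad (point t F b e) v) :
    (∃ k, b k ∈ v.asIdeal) ∨ ∃ i ∈ unequal e, (F i).eval t ∈ v.asIdeal := by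
  by_contra hcon
  push Not at hcon
  obtain ⟨h1, h2⟩ := hcon
  obtain ⟨k, k', hkk⟩ := h
  apply hkk
  have h3 : ∀ k, v.valuation K (point t F b e k : K) =
      ∏ i, v.intValuation ((F i).eval t) ^ e k i := by
    intro k
    unfold Pool.Agent.Results.MP_a793bb_nt.SmallDigitPoints.point
    rw [HeightOneSpectrum.valuation_of_algebraMap, map_mul, map_prod,
      HeightOneSpectrum.intValuation_eq_one_iff.mpr (h1 k), one_mul]
    exact Finset.prod_congr rfl fun i _ => map_pow _ _ _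
  rw [h3, h3]
  refine Finset.prod_congr rfl fun i _ => ?_
  by_cases hi : i ∈ unequal e
  · rw [HeightOneSpectrum.intValuation_eq_one_iff.mpr (h2 i hi), one_pow, one_pow]
  · unfold Pool.Agent.Results.MP_a793bb_nt.SmallDigitPoints.unequal at hi
    rw [Finset.mem_filter] at hi
    have h6' : e 0 i = e 1 i ∧ e 1 i = e 2 i := by
      by_contra h
      exact hi ⟨Finset.mem_univ i, h⟩
    obtain ⟨h7, h8⟩ := h6'
    have h7' : ∀ k', e k' i = e 0 i := by
      intro k'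
      fin_cases k'
      · rfl
      · exact h7.symm
      · exact (h7.trans h8).symm
    rw [h7' k, h7' k']

lemma cc_dvd {y : 𝓞 K} (hy : y ≠ 0) (A : HeightOneSpectrum (𝓞 K) → Prop)
    (hA : ∀ v, A v → y ∈ v.asIdeal) : cc ∅ A ≤ Real.log |((Algebra.norm ℚ (y : K) : ℚ) : ℝ)| := by
  classical
  have hf := Pool.Agent.Q103.SD.NF.primes_finite hy
  have hfA : {v | A v}.Finite := hf.subset fun v hv => hA v hv
  have h1 : cc ∅ A = ∑ v ∈ hfA.toFinset, Real.log (Ideal.absNorm v.asIdeal : ℝ) := by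
    unfold cc
    rw [finsum_eq_sum_of_support_subset (s := hfA.toFinset)]
    · refine Finset.sum_congr rfl fun v hv => ?_
      rw [Set.Finite.mem_toFinset] at hv
      exact ct_pos ⟨by simp, hv⟩
    · intro v hv
      rw [Function.mem_support] at hv
      rw [Finset.mem_coe, Set.Finite.mem_toFinset]
      by_contra h
      exact hv (ct_neg fun h1 => h h1.2)
  rw [h1]
  apply Pool.Agent.Q103.SD.NF.sum_log_le hy
  intro v hv
  rw [Set.Finite.mem_toFinset] at hv
  exact hA v hv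

/-- `log |N(y)|` -/
noncomputable def nl (y : 𝓞 K) : ℝ := Real.log |((Algebra.norm ℚ (y : K) : ℚ) : ℝ)|

lemma nl_ne {y : 𝓞 K} (hy : y ≠ 0) : |((Algebra.norm ℚ (y : K) : ℚ) : ℝ)| ≠ 0 := by
  have h1 : (y : K) ≠ 0 := RingOfIntegers.coe_ne_zero_iff.mpr hy
  have h2 : Algebra.norm ℚ (y : K) ≠ 0 := Algebra.norm_ne_zero_iff.mpr h1
  rw [abs_ne_zero]
  exact_mod_cast h2

lemma nl_mul {x y : 𝓞 K} (hx : x ≠ 0) (hy : y ≠ 0) : nl (x * y) = nl x + nl y := by
  unfold nl
  rw [← Real.log_mul (nl_ne hx) (nl_ne hy), ← abs_mul]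
  congr 2
  push_cast
  rw [map_mul]
  push_cast
  rfl

lemma nl_prod {ι : Type} (s : Finset ι) (f : ι → 𝓞 K) (hf : ∀ i ∈ s, f i ≠ 0) :
    nl (∏ i ∈ s, f i) = ∑ i ∈ s, nl (f i) := by
  classical
  induction s using Finset.induction_on with
  | empty =>
    rw [Finset.prod_empty, Finset.sum_empty]
    unfold nl
    simp
  | insert i s hi ih =>
    rw [Finset.prod_insert hi, Finset.sum_insert hi, nl_mul (hf i (Finset.mem_insert_self i s))
      (Finset.prod_ne_zero_iff.2 fun j hj => hf j (Finset.mem_insert_of_mem hj)),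
      ih fun j hj => hf j (Finset.mem_insert_of_mem hj)]

/-- the norm of a number all of whose conjugates are at most `M` -/
lemma nl_le {y : 𝓞 K} (hy : y ≠ 0) {M : ℝ} (h : ∀ σ : K →+* ℂ, ‖σ y‖ ≤ M) :
    nl y ≤ Module.finrank ℚ K * Real.log M := by
  unfold nl
  rw [← Pool.Agent.Q103.SD.NF.log_norm y hy, ← InfinitePlace.sum_mult_eq]
  push_cast
  rw [Finset.sum_mul]
  apply Finset.sum_le_sum
  intro w _
  apply mul_le_mul_of_nonneg_left _ (Nat.cast_nonneg _)
  have hyK : (y : K) ≠ 0 := RingOfIntegers.coe_ne_zero_iff.mpr hy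
  apply Real.log_le_log (InfinitePlace.pos_iff.2 hyK)
  rw [← InfinitePlace.norm_embedding_eq]
  exact h w.embedding

/-- the common primes of two points composed with the same base and the same numbers -/
theorem common {a b : Fin 3 → ℚ} (ha : Function.Injective a) (hb : Function.Injective b)
    {D : ℕ} {δ T : ℝ} (hT : 1 ≤ T) {n : ℕ} {t : 𝓞 K} {F : Fin n → (𝓞 K)[X]}
    {c c' : Fin 3 → 𝓞 K} {e e' : Fin 3 → Fin n → ℕ} {x y : K} (h : Small D δ T t F c e)
    (h' : Small D δ T t F c' e') (hx : Belongs a (point t F c e) x)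
    (hy : Belongs b (point t F c' e') y)
    (h0 : ∀ i ∈ unequal e ∩ unequal e', (F i).eval t ≠ 0) :
    cc ∅ (fun v => Meets a x v ∧ Meets b y v) ≤
      ∑ i ∈ unequal e ∩ unequal e', nl ((F i).eval t) +
        Module.finrank ℚ K * (Real.log (MM a ∅ : ℕ) + Real.log (MM b ∅ : ℕ) + 6 * (δ * Real.log T)) := by
  have hMa : ((MM a ∅ : ℕ) : 𝓞 K) ≠ 0 := by exact_mod_cast MM_ne a ha ∅ (by simp)
  have hMb : ((MM b ∅ : ℕ) : 𝓞 K) ≠ 0 := by exact_mod_cast MM_ne b hb ∅ (by simp)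
  have hc : ∏ k, c k ≠ 0 := Finset.prod_ne_zero_iff.2 fun k _ => h.ne_zero k
  have hc' : ∏ k, c' k ≠ 0 := Finset.prod_ne_zero_iff.2 fun k _ => h'.ne_zero k
  have hF : ∏ i ∈ unequal e ∩ unequal e', (F i).eval t ≠ 0 :=
    Finset.prod_ne_zero_iff.2 fun i hi => h0 i hi
  have hM2 := mul_ne_zero hMa hMb
  have hc2 := mul_ne_zero hc hc'
  have h3 := mul_ne_zero hM2 hc2
  have h1 := cc_dvd (mul_ne_zero h3 hF) (fun v => Meets a x v ∧ Meets b y v) (by
    rintro v ⟨⟨j, -, hj⟩, ⟨l, -, hl⟩⟩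
    by_cases q1 : ((MM a ∅ : ℕ) : 𝓞 K) ∈ v.asIdeal
    · exact v.asIdeal.mul_mem_right _ (v.asIdeal.mul_mem_right _ (v.asIdeal.mul_mem_right _ q1))
    by_cases q2 : ((MM b ∅ : ℕ) : 𝓞 K) ∈ v.asIdeal
    · exact v.asIdeal.mul_mem_right _ (v.asIdeal.mul_mem_right _ (v.asIdeal.mul_mem_left _ q2))
    rcases bad_prime (near_bad hx v q1 hj) with ⟨k, hk⟩ | ⟨i, hi, hiv⟩
    · exact v.asIdeal.mul_mem_right _ (v.asIdeal.mul_mem_left _ (v.asIdeal.mul_mem_right _
        (v.isPrime.prod_mem_iff.2 ⟨k, Finset.mem_univ k, hk⟩)))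
    rcases bad_prime (near_bad hy v q2 hl) with ⟨k, hk⟩ | ⟨i', hi', hiv'⟩
    · exact v.asIdeal.mul_mem_right _ (v.asIdeal.mul_mem_left _ (v.asIdeal.mul_mem_left _
        (v.isPrime.prod_mem_iff.2 ⟨k, Finset.mem_univ k, hk⟩)))
    have hii : i = i' := by
      by_contra hne
      obtain ⟨p, q, hpq⟩ := h.coprime i i' hne
      have h4 : (1 : 𝓞 K) ∈ v.asIdeal := by
        rw [← hpq]
        exact v.asIdeal.add_mem (v.asIdeal.mul_mem_left _ hiv) (v.asIdeal.mul_mem_left _ hiv')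
      exact v.isPrime.ne_top ((Ideal.eq_top_iff_one _).mpr h4)
    subst hii
    exact v.asIdeal.mul_mem_left _ (v.isPrime.prod_mem_iff.2
      ⟨i, Finset.mem_inter.2 ⟨hi, hi'⟩, hiv⟩))
  have h2 : Real.log |((Algebra.norm ℚ ((((MM a ∅ : ℕ) : 𝓞 K) * ((MM b ∅ : ℕ) : 𝓞 K) *
      ((∏ k, c k) * ∏ k, c' k) * ∏ i ∈ unequal e ∩ unequal e', (F i).eval t : 𝓞 K) : K) : ℚ) : ℝ)| =
      nl ((MM a ∅ : ℕ) : 𝓞 K) + nl ((MM b ∅ : ℕ) : 𝓞 K) + (∑ k, nl (c k) + ∑ k, nl (c' k)) +
        ∑ i ∈ unequal e ∩ unequal e', nl ((F i).eval t) := by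
    show nl _ = _
    rw [nl_mul h3 hF, nl_mul hM2 hc2, nl_mul hMa hMb, nl_mul hc hc',
      nl_prod _ _ fun k _ => h.ne_zero k, nl_prod _ _ fun k _ => h'.ne_zero k,
      nl_prod _ _ fun i hi => h0 i hi]
  rw [h2] at h1
  have hnat : ∀ M : ℕ, ((M : ℕ) : 𝓞 K) ≠ 0 → nl ((M : ℕ) : 𝓞 K) ≤
      Module.finrank ℚ K * Real.log (M : ℕ) := by
    intro M hM
    apply nl_le hM
    intro σ
    have : ((((M : ℕ) : 𝓞 K)) : K) = (M : K) := by simp
    rw [this, map_natCast, Complex.norm_natCast]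
  have h5 := hnat _ hMa
  have h6 := hnat _ hMb
  have hTp : 0 < T := by linarith
  have hck : ∀ k, nl (c k) ≤ Module.finrank ℚ K * (δ * Real.log T) := by
    intro k
    have := nl_le (h.ne_zero k) fun σ => h.coefficients k σ
    rwa [Real.log_rpow hTp] at this
  have hck' : ∀ k, nl (c' k) ≤ Module.finrank ℚ K * (δ * Real.log T) := by
    intro k
    have := nl_le (h'.ne_zero k) fun σ => h'.coefficients k σ
    rwa [Real.log_rpow hTp] at this
  rw [Fin.sum_univ_three, Fin.sum_univ_three] at h1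
  have := hck 0
  have := hck 1
  have := hck 2
  have := hck' 0
  have := hck' 1
  have := hck' 2
  linarith

end Pool.Agent.Q128.SDF
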