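import Mathlib
import Pool.Agent.Q128.SDF.Pair

/-!
# The truncated counting function of a grid
-/

set_option autoImplicit false

namespace Pool.Agent.Q128.SDF

open IsDedekindDomain NumberField Height
open scoped Polynomial
open Pool.Agent.W223.VD (cnt)
open Pool.Agent.W223.AC (pt mob not_mem_of_dvd val_finite)
open Pool.Agent.W223.CV
open Pool.Agent.W337.AC.MOBC
open Pool.Agent.Q103.SDV (Bad mk_le)
open Pool.Agent.Q103.SDJ (Compo lN)
open Pool.Agent.Results.MP_a793bb_nt.SmallDigitPoints (Small point unequal logN)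
open Pool.Agent.Results.MP_71c16a_nt.SmallDigitPoints (Belongs)

variable {K : Type} [Field K] [NumberField K]

omit [NumberField K] in
lemma sum_le_aux (w : InfinitePlace K) (s : Finset ℕ) (f : ℕ → K) :
    w (∑ j ∈ s, f j) ≤ ∑ j ∈ s, w (f j) := by
  classical
  induction s using Finset.induction_on with
  | empty => simp
  | insert i s hi ih =>
    rw [Finset.sum_insert hi, Finset.sum_insert hi]
    exact (w.1.add_le _ _).trans (add_le_add_right ih _)

/-- the norm of a number with small digits -/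
lemma nl_eval_le {D : ℕ} {δ T : ℝ} (hT : 1 ≤ T) {n : ℕ} {t : 𝓞 K} {F : Fin n → (𝓞 K)[X]}
    {c : Fin 3 → 𝓞 K} {e : Fin 3 → Fin n → ℕ} (h : Small D δ T t F c e) (ht : t ≠ 0) (i : Fin n)
    (h0 : (F i).eval t ≠ 0) :
    nl ((F i).eval t) ≤ (F i).natDegree * nl t +
      Module.finrank ℚ K * (Real.log (D + 1) + δ * Real.log T) := by
  have hTp : 0 < T := by linarith
  have hdeg : (F i).natDegree ≤ D := by
    refine le_trans ?_ h.number
    exact Finset.single_le_sum (f := fun i => (F i).natDegree) (fun j _ => Nat.zero_le _)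
      (Finset.mem_univ i)
  have hw : ∀ w : InfinitePlace K, Real.log (w (((F i).eval t : 𝓞 K) : K)) ≤
      (F i).natDegree * Real.log (w (t : K)) + (Real.log (D + 1) + δ * Real.log T) := by
    intro w
    have hyK : (((F i).eval t : 𝓞 K) : K) ≠ 0 := RingOfIntegers.coe_ne_zero_iff.mpr h0
    have htK : (t : K) ≠ 0 := RingOfIntegers.coe_ne_zero_iff.mpr ht
    have ht1 : 1 ≤ w (t : K) := by
      rw [← InfinitePlace.norm_embedding_eq]
      exact hT.trans (h.base w.embedding)
    have e1 : (((F i).eval t : 𝓞 K) : K) =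
        ∑ j ∈ Finset.range ((F i).natDegree + 1), ((F i).coeff j : K) * (t : K) ^ j := by
      rw [Polynomial.eval_eq_sum_range]
      push_cast
      rfl
    have e2 : w (((F i).eval t : 𝓞 K) : K) ≤ (D + 1) * T ^ δ * w (t : K) ^ (F i).natDegree := by
      rw [e1]
      calc w (∑ j ∈ Finset.range ((F i).natDegree + 1), ((F i).coeff j : K) * (t : K) ^ j) ≤
            ∑ j ∈ Finset.range ((F i).natDegree + 1), w (((F i).coeff j : K) * (t : K) ^ j) :=
            Pool.Agent.Q128.SDF.sum_le_aux w _ _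
        _ ≤ ∑ _j ∈ Finset.range ((F i).natDegree + 1), T ^ δ * w (t : K) ^ (F i).natDegree := by
            apply Finset.sum_le_sum
            intro j hj
            rw [map_mul, map_pow]
            have h3 : w ((F i).coeff j : K) ≤ T ^ δ := by
              rw [← InfinitePlace.norm_embedding_eq]
              exact h.digits i j w.embedding
            have h4 : w (t : K) ^ j ≤ w (t : K) ^ (F i).natDegree :=
              pow_le_pow_right₀ ht1 (by
                rw [Finset.mem_range] at hj
                omega)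
            exact mul_le_mul h3 h4 (by positivity) (by positivity)
        _ = ((F i).natDegree + 1) * (T ^ δ * w (t : K) ^ (F i).natDegree) := by
            rw [Finset.sum_const, Finset.card_range, nsmul_eq_mul]
            push_cast
            rfl
        _ ≤ (D + 1) * (T ^ δ * w (t : K) ^ (F i).natDegree) := by
            apply mul_le_mul_of_nonneg_right _ (by positivity)
            have : ((F i).natDegree : ℝ) ≤ D := by exact_mod_cast hdeg
            linarith
        _ = (D + 1) * T ^ δ * w (t : K) ^ (F i).natDegree := by ring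
    have hwt : 0 < w (t : K) := by linarith
    have h5 := Real.log_le_log (InfinitePlace.pos_iff.2 hyK) e2
    rw [Real.log_mul (by positivity) (by positivity), Real.log_mul (by positivity) (by positivity),
      Real.log_rpow hTp, Real.log_pow] at h5
    linarith
  unfold nl
  rw [← Pool.Agent.Q103.SD.NF.log_norm _ h0, ← Pool.Agent.Q103.SD.NF.log_norm _ ht,
    ← InfinitePlace.sum_mult_eq]
  push_cast
  rw [Finset.mul_sum, Finset.sum_mul, ← Finset.sum_add_distrib]
  apply Finset.sum_le_sum
  intro w _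
  have h6 := mul_le_mul_of_nonneg_left (hw w) (Nat.cast_nonneg w.mult)
  refine h6.trans (le_of_eq ?_)
  ring

lemma mk_max (v : HeightOneSpectrum (𝓞 K)) (x : K) :
    ∃ c : K, v.valuation K c = max (v.valuation K x) 1 ∧
      FinitePlace.mk v c = max (FinitePlace.mk v x) 1 := by
  by_cases h : v.valuation K x ≤ 1
  · refine ⟨1, ?_, ?_⟩
    · rw [max_eq_right h, map_one]
    · have h1 := (Pool.Agent.Q103.SDV.mk_le_one v x).2 h
      rw [max_eq_right h1, map_one]
  · refine ⟨x, ?_, ?_⟩
    · rw [max_eq_left (not_le.1 h).le]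
    · have h1 : ¬ FinitePlace.mk v x ≤ 1 := fun h2 => h ((Pool.Agent.Q103.SDV.mk_le_one v x).1 h2)
      rw [max_eq_left (not_le.1 h1).le]

lemma lin_le_fp (a : ℚ) (x : K) (v : HeightOneSpectrum (𝓞 K)) :
    FinitePlace.mk v (lin (pt a) x) ≤ max (FinitePlace.mk v x) 1 := by
  obtain ⟨c, hc1, hc2⟩ := mk_max v x
  rw [← hc2, mk_le, hc1]
  have e : lin (pt a) x = ((a.num : ℤ) : K) - x * (((a.den : ℕ) : ℤ) : K) := rfl
  have h1 : v.valuation K ((a.num : ℤ) : K) ≤ 1 := by
    have := v.valuation_le_one (K := K) ((a.num : ℤ) : 𝓞 K)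
    simpa using this
  have h2 : v.valuation K (((a.den : ℕ) : ℤ) : K) ≤ 1 := by
    have := v.valuation_le_one (K := K) (((a.den : ℕ) : ℤ) : 𝓞 K)
    simpa using this
  rw [e]
  refine (Valuation.map_sub _ _ _).trans (max_le (le_max_of_le_right h1) (le_max_of_le_left ?_))
  rw [map_mul]
  exact mul_le_of_le_one_right' h2

lemma near_fp (a : ℚ) (x : K) (v : HeightOneSpectrum (𝓞 K)) (h : Near (pt a) x v) :
    FinitePlace.mk v (lin (pt a) x) * (Ideal.absNorm v.asIdeal : ℝ) ≤
      max (FinitePlace.mk v x) 1 := by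
  obtain ⟨c, hc1, hc2⟩ := mk_max v x
  have hc0 : v.valuation K c ≠ 0 := by
    rw [hc1]
    exact (lt_max_of_lt_right zero_lt_one).ne'
  have hc : c ≠ 0 := (Valuation.ne_zero_iff _).1 hc0
  have h1 : v.valuation K (lin (pt a) x / c) < 1 := by
    rw [map_div₀, hc1]
    exact (div_lt_one₀ (by rw [← hc1]; exact zero_lt_iff.2 hc0)).2 h
  have h2 := Pool.Agent.W223.AC.val_lt_one_iff v _ h1
  have hN : (0 : ℝ) < Ideal.absNorm v.asIdeal := by
    have := Pool.Agent.Q103.SD.NF.one_le_absNorm v
    linarith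
  have h3 : FinitePlace.mk v (lin (pt a) x / c) ≤ (Ideal.absNorm v.asIdeal : ℝ)⁻¹ := by
    rw [← Pool.Agent.W125.CV.fv_apply, Pool.Agent.W125.CV.fv_eq]
    have hm : StrictMono (WithZeroMulInt.toNNReal (HeightOneSpectrum.absNorm_ne_zero v)) :=
      WithZeroMulInt.toNNReal_strictMono (HeightOneSpectrum.one_lt_absNorm_nnreal v)
    have h4 := hm.monotone h2
    have h6 : WithZeroMulInt.toNNReal (HeightOneSpectrum.absNorm_ne_zero v)
        (WithZero.exp (-((1 : ℕ) : ℤ))) = (Ideal.absNorm v.asIdeal : NNReal)⁻¹ := by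
      rw [WithZeroMulInt.toNNReal_neg_apply _ WithZero.exp_ne_zero]
      show (Ideal.absNorm v.asIdeal : NNReal) ^ (-((1 : ℕ) : ℤ)) = _
      simp
    rw [h6] at h4
    have h5 : ((WithZeroMulInt.toNNReal (HeightOneSpectrum.absNorm_ne_zero v)
        (v.valuation K (lin (pt a) x / c)) : NNReal) : ℝ) ≤
        (((Ideal.absNorm v.asIdeal : NNReal)⁻¹ : NNReal) : ℝ) := NNReal.coe_le_coe.2 h4
    refine h5.trans (le_of_eq ?_)
    push_cast
    rfl
  rw [map_div₀, div_le_iff₀ (by rw [hc2]; exact lt_max_of_lt_right zero_lt_one), hc2,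
    inv_mul_eq_div, le_div_iff₀ hN] at h3
  exact h3

lemma fp_ne_finite {x : K} (hx : x ≠ 0) :
    {v : HeightOneSpectrum (𝓞 K) | FinitePlace.mk v x ≠ 1}.Finite :=
  Pool.Agent.W125.CV.fv_support_finite hx

lemma fp_max_finite (x : K) :
    {v : HeightOneSpectrum (𝓞 K) | max (FinitePlace.mk v x) 1 ≠ 1}.Finite := by
  by_cases hx : x = 0
  · refine Set.Finite.subset Set.finite_empty ?_
    intro v hv
    exfalso
    apply hv
    rw [hx, map_zero]
    exact max_eq_right zero_le_one
  · refine (fp_ne_finite hx).subset ?_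
    intro v hv h
    apply hv
    rw [h, max_self]

end Pool.Agent.Q128.SDF
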