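import Mathlib
import Pool.Agent.Q103.SDV.JCount
import Pool.Agent.W131.AC.GROW
import Pool.Agent.W989.AC.MULT
import Pool.Agent.W223.AC.Split

/-!
# Local heights of products of ideals on curves
-/

set_option autoImplicit false

namespace Pool.Agent.Q128.SDF

open IsDedekindDomain NumberField Height Polynomial
open Pool.Agent.W125.CV (fv)
open Pool.Agent.W223.AC (tt psi IntEl)

lemma fv_nat_le {L : Type} [Field L] [NumberField L] (v : HeightOneSpectrum (𝓞 L)) (n : ℕ) :
    fv v (n : L) ≤ 1 := by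
  have := Pool.Agent.W125.CV.fv_int v (n : ℤ)
  simpa using this

lemma fv_nat_pos {L : Type} [Field L] [NumberField L] (v : HeightOneSpectrum (𝓞 L)) {n : ℕ}
    (hn : n ≠ 0) : 0 < fv v (n : L) :=
  (fv v).pos_iff.2 (by exact_mod_cast hn)

lemma place_nat {L : Type} [Field L] [NumberField L] (w : InfinitePlace L) (n : ℕ) :
    w (n : L) = n := by
  rw [← InfinitePlace.norm_embedding_eq w, map_natCast, Complex.norm_natCast]

/-- growth of the values of all functions -/
lemma grow {A : Type} [CommRing A] [Algebra ℚ[X] A] [Module.Finite ℚ[X] A] (y : A) :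
    ∃ (n c : ℕ) (B : ℝ), n ≠ 0 ∧ 1 ≤ B ∧ ∀ (L : Type) [Field L] [NumberField L] (φ : A →+* L),
      (∀ v : HeightOneSpectrum (𝓞 L), fv v (n : L) * fv v (φ y) ≤ max (fv v (φ (tt A))) 1 ^ c) ∧
      ∀ w : InfinitePlace L, w (φ y) ≤ B * max (w (φ (tt A))) 1 ^ c := by
  obtain ⟨n, hn, hi⟩ := Pool.Agent.W989.AC.MULT.t A y
  obtain ⟨c, B, hB, h⟩ := Pool.Agent.W131.AC.t A _ hi
  refine ⟨n, c, B, hn, hB, fun L _ _ φ => ?_⟩
  obtain ⟨h1, h2⟩ := h L φ
  constructor
  · intro v
    have := h1 v
    rw [map_mul, map_natCast, map_mul] at this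
    exact this
  · intro w
    have := h2 w
    rw [map_mul, map_natCast, map_mul, place_nat] at this
    have h3 : (1 : ℝ) ≤ n := by exact_mod_cast Nat.one_le_iff_ne_zero.mpr hn
    have h4 : 0 ≤ w (φ y) := apply_nonneg _ _
    nlinarith

lemma grow_fin {A : Type} [CommRing A] [Algebra ℚ[X] A] [Module.Finite ℚ[X] A] {ι : Type}
    [Fintype ι] (y : ι → A) :
    ∃ (n c : ℕ) (B : ℝ), n ≠ 0 ∧ 1 ≤ B ∧ ∀ (L : Type) [Field L] [NumberField L] (φ : A →+* L),
      (∀ (v : HeightOneSpectrum (𝓞 L)) (i : ι),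
        fv v (n : L) * fv v (φ (y i)) ≤ max (fv v (φ (tt A))) 1 ^ c) ∧
      ∀ (w : InfinitePlace L) (i : ι), w (φ (y i)) ≤ B * max (w (φ (tt A))) 1 ^ c := by
  classical
  choose n c B hn hB h using fun i => grow (y i)
  have hB0 : ∀ i, 0 ≤ B i := fun i => zero_le_one.trans (hB i)
  refine ⟨∏ i, n i, ∑ i, c i, 1 + ∑ i, B i, Finset.prod_ne_zero_iff.2 fun i _ => hn i, ?_, ?_⟩
  · have := Finset.sum_nonneg fun i (_ : i ∈ Finset.univ) => hB0 i
    linarith
  · intro L _ _ φ
    constructor
    · intro v i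
      have h1 := (h i L φ).1 v
      have h2 : fv v ((∏ j, n j : ℕ) : L) ≤ fv v (n i : L) := by
        rw [← Finset.mul_prod_erase _ _ (Finset.mem_univ i)]
        push_cast
        rw [map_mul]
        have h3 := fv_nat_le (L := L) v (∏ j ∈ Finset.univ.erase i, n j)
        push_cast at h3
        exact mul_le_of_le_one_right (apply_nonneg _ _) h3
      have h4 : (1 : ℝ) ≤ max (fv v (φ (tt A))) 1 := le_max_right _ _
      calc fv v ((∏ j, n j : ℕ) : L) * fv v (φ (y i)) ≤ fv v (n i : L) * fv v (φ (y i)) :=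
            mul_le_mul_of_nonneg_right h2 (apply_nonneg _ _)
        _ ≤ max (fv v (φ (tt A))) 1 ^ c i := h1
        _ ≤ max (fv v (φ (tt A))) 1 ^ ∑ j, c j :=
            pow_le_pow_right₀ h4 (Finset.single_le_sum (fun j _ => Nat.zero_le _)
              (Finset.mem_univ i))
    · intro w i
      have h1 := (h i L φ).2 w
      have h4 : (1 : ℝ) ≤ max (w (φ (tt A))) 1 := le_max_right _ _
      have h5 : max (w (φ (tt A))) 1 ^ c i ≤ max (w (φ (tt A))) 1 ^ ∑ j, c j :=
        pow_le_pow_right₀ h4 (Finset.single_le_sum (fun j _ => Nat.zero_le _) (Finset.mem_univ i))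
      have h6 : B i ≤ 1 + ∑ j, B j := by
        have := Finset.single_le_sum (fun j _ => hB0 j) (Finset.mem_univ i)
        linarith
      calc w (φ (y i)) ≤ B i * max (w (φ (tt A))) 1 ^ c i := h1
        _ ≤ (1 + ∑ j, B j) * max (w (φ (tt A))) 1 ^ ∑ j, c j :=
          mul_le_mul h6 h5 (by positivity) (le_trans (hB0 i) h6)

/-- a nonconstant polynomial is large where its argument is large -/
lemma poly_large (h : ℚ[X]) (hh : 0 < h.natDegree) :
    ∃ (l : ℕ) (R : ℝ), l ≠ 0 ∧ 1 ≤ R ∧ ∀ (L : Type) [Field L] [NumberField L] (x : L),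
      (∀ v : HeightOneSpectrum (𝓞 L), fv v (aeval x h) < 1 → fv v (l : L) * fv v x ≤ 1) ∧
      ∀ w : InfinitePlace L, w (aeval x h) < 1 → w x ≤ R := by
  classical
  -- the infinite places
  obtain ⟨R, hR⟩ : ∃ R : ℝ, ∀ z : ℂ, R ≤ ‖z‖ → 1 ≤ ‖(h.map (algebraMap ℚ ℂ)).eval z‖ := by
    have h1 : 0 < (h.map (algebraMap ℚ ℂ)).degree := by
      rw [degree_map, ← natDegree_pos_iff_degree_pos]
      exact hh
    have h2 := ((h.map (algebraMap ℚ ℂ)).tendsto_norm_atTop h1
      (Filter.tendsto_comap (f := fun z : ℂ => ‖z‖) (x := Filter.atTop))).eventually_ge_atTop 1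
    rw [Filter.eventually_comap] at h2
    obtain ⟨R, hR⟩ := Filter.eventually_atTop.1 h2
    exact ⟨R, fun z hz => hR _ hz z rfl⟩
  -- the finite places
  obtain ⟨n, hn, hH⟩ := IsLocalization.integerNormalization_spec (nonZeroDivisors ℤ) h
  obtain ⟨H, hHdef⟩ : ∃ H : ℤ[X], H = IsLocalization.integerNormalization (nonZeroDivisors ℤ) h :=
    ⟨_, rfl⟩
  rw [← hHdef] at hH
  have hn0 : (n : ℤ) ≠ 0 := nonZeroDivisors.ne_zero hn
  have hH' : H.map (algebraMap ℤ ℚ) = C (n : ℚ) * h := by
    rw [hH]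
    ext i
    rw [coeff_smul, coeff_C_mul]
    show (n : ℤ) • h.coeff i = (n : ℚ) * h.coeff i
    rw [zsmul_eq_mul]
  have hdeg : H.natDegree = h.natDegree := by
    rw [← natDegree_map_eq_of_injective (RingHom.injective_int (algebraMap ℤ ℚ)), hH',
      natDegree_C_mul (by exact_mod_cast hn0)]
  have hl : H.leadingCoeff ≠ 0 := by
    rw [leadingCoeff_ne_zero]
    rintro rfl
    rw [natDegree_zero] at hdeg
    omega
  refine ⟨H.leadingCoeff.natAbs, max R 1, Int.natAbs_ne_zero.2 hl, le_max_right _ _, ?_⟩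
  intro L _ _ x
  constructor
  · intro v hv
    by_contra hcon
    rw [not_le] at hcon
    -- in terms of the valuation
    have e1 : v.valuation L ((H.leadingCoeff.natAbs : ℕ) : L) =
        v.valuation L (H.leadingCoeff : L) := by
      rcases Int.natAbs_eq H.leadingCoeff with h2 | h2
      · conv_rhs => rw [h2]
        simp
      · conv_rhs => rw [h2]
        simp
    have h1 : 1 < v.valuation L ((H.leadingCoeff : L) * x) := by
      rw [map_mul, ← e1, ← map_mul]
      rw [← map_mul] at hcon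
      by_contra h2
      rw [not_lt] at h2
      have h3 := (Pool.Agent.Q103.SDV.mk_le_one v _).2 h2
      exact absurd hcon (not_lt.2 h3)
    have hint : ∀ m : ℤ, v.valuation L (m : L) ≤ 1 := by
      intro m
      have := v.valuation_le_one (K := L) ((m : ℤ) : 𝓞 L)
      simpa using this
    have hx1 : 1 < v.valuation L x := by
      by_contra h2
      rw [not_lt] at h2
      rw [map_mul] at h1
      exact absurd (mul_le_one' (hint _) h2) (not_le.2 h1)
    obtain ⟨k, hk⟩ : ∃ k, H.natDegree = k + 1 := ⟨H.natDegree - 1, by omega⟩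
    have hsum : aeval x H = ∑ i ∈ Finset.range (k + 1), (H.coeff i : L) * x ^ i +
        (H.leadingCoeff : L) * x ^ (k + 1) := by
      rw [aeval_eq_sum_range, hk, Finset.sum_range_succ]
      congr 1
      · exact Finset.sum_congr rfl fun i _ => by rw [zsmul_eq_mul]
      · rw [zsmul_eq_mul, leadingCoeff, hk]
    have hlast : v.valuation L ((H.leadingCoeff : L) * x ^ (k + 1)) =
        v.valuation L ((H.leadingCoeff : L) * x) * v.valuation L x ^ k := by
      rw [pow_succ', ← mul_assoc, map_mul _ _ (x ^ k), map_pow]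
    have hpow : 1 ≤ v.valuation L x ^ k := one_le_pow₀ hx1.le
    have hbig : v.valuation L x ^ k < v.valuation L ((H.leadingCoeff : L) * x ^ (k + 1)) := by
      rw [hlast]
      exact lt_mul_of_one_lt_left (lt_of_lt_of_le zero_lt_one hpow) h1
    have hrest : v.valuation L (∑ i ∈ Finset.range (k + 1), (H.coeff i : L) * x ^ i) ≤
        v.valuation L x ^ k := by
      apply Valuation.map_sum_le
      intro i hi
      rw [map_mul, map_pow]
      rw [Finset.mem_range] at hi
      exact (mul_le_of_le_one_left' (hint _)).trans (pow_le_pow_right₀ hx1.le (by omega))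
    have hval : v.valuation L (aeval x H) = v.valuation L ((H.leadingCoeff : L) * x ^ (k + 1)) := by
      rw [hsum, add_comm]
      exact Valuation.map_add_eq_of_lt_left _ (hrest.trans_lt hbig)
    have h2 : 1 < v.valuation L (aeval x H) := by
      rw [hval]
      exact hpow.trans_lt hbig
    have h3 : aeval x H = (n : L) * aeval x h := by
      have h4 : aeval x (H.map (algebraMap ℤ ℚ)) = aeval x H := aeval_map_algebraMap ℚ x H
      rw [← h4, hH', map_mul, aeval_C]
      simp
    rw [h3, map_mul] at h2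
    have h5 : v.valuation L (aeval x h) < 1 := (Pool.Agent.W337.AC.MOBC.mk_lt v _).1 hv
    exact absurd (mul_le_one' (hint n) h5.le) (not_le.2 h2)
  · intro w hw
    by_contra hcon
    rw [not_le] at hcon
    have h1 : R ≤ ‖w.embedding x‖ := by
      rw [InfinitePlace.norm_embedding_eq]
      exact (le_max_left _ _).trans hcon.le
    have h2 := hR _ h1
    have h3 : (h.map (algebraMap ℚ ℂ)).eval (w.embedding x) = w.embedding (aeval x h) := by
      rw [eval_map, ← aeval_def]
      have h4 : aeval (w.embedding x) h = aeval ((w.embedding.toRatAlgHom) x) h := rfl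
      rw [h4, aeval_algHom_apply]
      rfl
    rw [h3, InfinitePlace.norm_embedding_eq] at h2
    exact absurd hw (not_lt.2 h2)

end Pool.Agent.Q128.SDF
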