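import Mathlib
import Pool.Agent.Q128.SDF.Mult

/-!
# Local heights of products of ideals on curves, comparison
-/

set_option autoImplicit false

namespace Pool.Agent.Q128.SDF

open IsDedekindDomain NumberField Height Polynomial
open Pool.Agent.W125.CV (fv)
open Pool.Agent.W223.AC (tt psi IntEl)

/-- `max (0, - log max_i c_i)` -/
noncomputable def mL {s : ℕ} (c : Fin (s + 1) → ℝ) : ℝ := max 0 (-Real.log (⨆ i, c i))

lemma mL_nonneg {s : ℕ} (c : Fin (s + 1) → ℝ) : 0 ≤ mL c := le_max_left _ _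

lemma mL_le {s : ℕ} {c : Fin (s + 1) → ℝ} {r : ℝ} (hr : 0 ≤ r)
    (h : (⨆ i, c i) < 1 → -Real.log (⨆ i, c i) ≤ r) : mL c ≤ r := by
  unfold mL
  apply max_le hr
  by_cases h1 : (⨆ i, c i) < 1
  · exact h h1
  · rw [not_lt] at h1
    have := Real.log_nonneg h1
    linarith

lemma exists_max {s : ℕ} (c : Fin (s + 1) → ℝ) : ∃ i, c i = ⨆ i, c i := exists_eq_ciSup_of_finite

/-- the comparison of sizes, from the values of the maxima -/
lemma log_step {G G' Y0 Y1 Y2 θ : ℝ} (h' : 0 < G') (h0 : 0 < Y0) (h1 : 0 < Y1) (h2 : 0 < Y2)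
    (hθ : 0 < θ) (h : θ * (G' * (Y0 * (Y1 * Y2))) ≤ G) :
    -Real.log G ≤ -Real.log G' + (-Real.log Y0 + (-Real.log Y1 + -Real.log Y2)) + -Real.log θ := by
  have h3 := Real.log_le_log (by positivity) h
  rw [Real.log_mul hθ.ne' (by positivity), Real.log_mul h'.ne' (by positivity),
    Real.log_mul h0.ne' (by positivity), Real.log_mul h1.ne' h2.ne'] at h3
  linarith

/-- **Comparison of local heights.** If the products of the `g' i` and the `y j k`, one for each `j`,
are in the ideal generated by the `g l`, and `g 0` is a nonconstant polynomial in the coordinate, then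
the local heights of `g` are at most those of `g'` and of the `y j`, up to constants. -/
theorem compare {A : Type} [CommRing A] [Algebra ℚ[X] A] [Module.Finite ℚ[X] A] {r r' : ℕ}
    (g : Fin (r + 1) → A) (g' : Fin (r' + 1) → A) (u : Fin 3 → ℕ) (y : ∀ j, Fin (u j + 1) → A)
    (h : ℚ[X]) (hh : 0 < h.natDegree) (hg : g 0 = algebraMap ℚ[X] A h)
    (hprod : ∀ i k0 k1 k2, g' i * (y 0 k0 * (y 1 k1 * y 2 k2)) ∈ Ideal.span (Set.range g)) :
    ∃ (N : ℕ) (B : ℝ), N ≠ 0 ∧ 0 ≤ B ∧ ∀ (L : Type) [Field L] [NumberField L] (φ : A →+* L),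
      (∃ i, φ (g' i) ≠ 0) → (∀ j, ∃ k, φ (y j k) ≠ 0) →
      (∀ v : HeightOneSpectrum (𝓞 L), mL (fun i => fv v (φ (g i))) ≤
        mL (fun i => fv v (φ (g' i))) + ∑ j, mL (fun k => fv v (φ (y j k))) +
          -Real.log (fv v (N : L))) ∧
      ∀ w : InfinitePlace L, mL (fun i => w (φ (g i))) ≤
        mL (fun i => w (φ (g' i))) + ∑ j, mL (fun k => w (φ (y j k))) + B := by
  classical
  have h1 : ∀ i k0 k1 k2, ∃ c : Fin (r + 1) → A,
      ∑ l, c l * g l = g' i * (y 0 k0 * (y 1 k1 * y 2 k2)) := by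
    intro i k0 k1 k2
    exact (Ideal.mem_span_range_iff_exists_fun).1 (hprod i k0 k1 k2)
  choose c hc using h1
  obtain ⟨n, e, B, hn, hB, hgrow⟩ := grow_fin (A := A)
    (ι := Fin (r' + 1) × Fin (u 0 + 1) × Fin (u 1 + 1) × Fin (u 2 + 1) × Fin (r + 1))
    (fun p => c p.1 p.2.1 p.2.2.1 p.2.2.2.1 p.2.2.2.2)
  obtain ⟨l, R, hl, hR, hlarge⟩ := poly_large h hh
  have hR0 : 0 < R := by linarith
  have hle : (1 : ℝ) ≤ ((r : ℝ) + 1) * (B * R ^ e) := by
    have e1 : (1 : ℝ) ≤ R ^ e := one_le_pow₀ hR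
    have e2 : (0 : ℝ) ≤ r := Nat.cast_nonneg r
    have e3 : (1 : ℝ) ≤ B * R ^ e := by nlinarith
    nlinarith
  refine ⟨n * l ^ e, Real.log (((r : ℝ) + 1) * (B * R ^ e)), mul_ne_zero hn (pow_ne_zero _ hl),
    Real.log_nonneg hle, ?_⟩
  intro L _ _ φ hg' hy
  obtain ⟨hfin, hinf⟩ := hgrow L φ
  obtain ⟨hlf, hli⟩ := hlarge L (φ (tt A))
  have hx : φ (g 0) = aeval (φ (tt A)) h := by
    rw [hg]
    have h2 : h = aeval (X : ℚ[X]) h := by rw [aeval_X_left_apply]
    conv_lhs => rw [h2]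
    have h3 : (φ.comp (algebraMap ℚ[X] A)) (aeval X h) =
        aeval ((φ.comp (algebraMap ℚ[X] A)) X) h := by
      have h4 := Polynomial.aeval_algHom_apply ((φ.comp (algebraMap ℚ[X] A)).toRatAlgHom) X h
      exact h4.symm
    exact h3
  -- the values of the products
  have hval : ∀ i k0 k1 k2, φ (g' i) * (φ (y 0 k0) * (φ (y 1 k1) * φ (y 2 k2))) =
      ∑ l, φ (c i k0 k1 k2 l) * φ (g l) := by
    intro i k0 k1 k2
    rw [← map_mul, ← map_mul, ← map_mul, ← hc, map_sum]
    exact Finset.sum_congr rfl fun l _ => map_mul _ _ _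
  have hpos : ∀ (m : L → ℝ), (∀ z, z ≠ 0 → 0 < m z) → (0 < ⨆ i, m (φ (g' i))) ∧
      ∀ j, 0 < ⨆ k, m (φ (y j k)) := by
    intro m hm
    constructor
    · obtain ⟨i, hi⟩ := hg'
      exact (hm _ hi).trans_le (le_ciSup (f := fun i => m (φ (g' i)))
        (Set.finite_range _).bddAbove i)
    · intro j
      obtain ⟨k, hk⟩ := hy j
      exact (hm _ hk).trans_le (le_ciSup (f := fun k => m (φ (y j k)))
        (Set.finite_range _).bddAbove k)
  constructor
  · intro v
    obtain ⟨p', py⟩ := hpos (fun z => fv v z) (fun z hz => (fv v).pos_iff.2 hz)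
    have hθ : 0 < fv v ((n * l ^ e : ℕ) : L) := fv_nat_pos v (mul_ne_zero hn (pow_ne_zero _ hl))
    have hθ1 : fv v ((n * l ^ e : ℕ) : L) ≤ 1 := fv_nat_le v _
    have hlog : 0 ≤ -Real.log (fv v ((n * l ^ e : ℕ) : L)) := by
      have := Real.log_nonpos hθ.le hθ1
      linarith
    have hs : 0 ≤ ∑ j, mL (fun k => fv v (φ (y j k))) := Finset.sum_nonneg fun j _ => mL_nonneg _
    have h0 := mL_nonneg (fun i => fv v (φ (g' i)))
    refine mL_le (by positivity) ?_
    intro hG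
    obtain ⟨i, hi⟩ := exists_max (fun i => fv v (φ (g' i)))
    obtain ⟨k0, hk0⟩ := exists_max (fun k => fv v (φ (y 0 k)))
    obtain ⟨k1, hk1⟩ := exists_max (fun k => fv v (φ (y 1 k)))
    obtain ⟨k2, hk2⟩ := exists_max (fun k => fv v (φ (y 2 k)))
    obtain ⟨l0, hl0⟩ := exists_max (fun l => fv v (φ (g l)))
    have hle : ∀ l', fv v (φ (g l')) ≤ fv v (φ (g l0)) := fun l' => by
      rw [hl0]
      exact le_ciSup (f := fun l => fv v (φ (g l))) (Set.finite_range _).bddAbove l'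
    have hg0 : fv v (aeval (φ (tt A)) h) < 1 := by
      rw [← hx]
      exact (le_ciSup (f := fun l => fv v (φ (g l))) (Set.finite_range _).bddAbove 0).trans_lt hG
    have hlx := hlf v hg0
    have hmax : fv v (l : L) * max (fv v (φ (tt A))) 1 ≤ 1 := by
      rw [mul_max_of_nonneg _ _ (apply_nonneg _ _), mul_one]
      exact max_le hlx (fv_nat_le v l)
    -- the coefficients
    have hcoef : ∀ l', fv v (((n * l ^ e : ℕ) : L) * φ (c i k0 k1 k2 l')) ≤ 1 := by
      intro l'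
      have h2 := hfin v (i, k0, k1, k2, l')
      have h3 : fv v (((n * l ^ e : ℕ) : L) * φ (c i k0 k1 k2 l')) =
          fv v (l : L) ^ e * (fv v (n : L) * fv v (φ (c i k0 k1 k2 l'))) := by
        push_cast
        rw [map_mul, map_mul, map_pow]
        ring
      rw [h3]
      calc fv v (l : L) ^ e * (fv v (n : L) * fv v (φ (c i k0 k1 k2 l'))) ≤
            fv v (l : L) ^ e * max (fv v (φ (tt A))) 1 ^ e :=
            mul_le_mul_of_nonneg_left h2 (by positivity)
        _ = (fv v (l : L) * max (fv v (φ (tt A))) 1) ^ e := by rw [mul_pow]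
        _ ≤ 1 := pow_le_one₀ (by positivity) hmax
    have hsum : fv v (((n * l ^ e : ℕ) : L) * ∑ l', φ (c i k0 k1 k2 l') * φ (g l')) ≤
        fv v (φ (g l0)) := by
      rw [Finset.mul_sum]
      show FinitePlace.mk v _ ≤ FinitePlace.mk v _
      rw [Pool.Agent.Q103.SDV.mk_le]
      apply Valuation.map_sum_le
      intro l' _
      rw [← Pool.Agent.Q103.SDV.mk_le]
      show fv v _ ≤ fv v _
      rw [← mul_assoc, map_mul]
      calc fv v (((n * l ^ e : ℕ) : L) * φ (c i k0 k1 k2 l')) * fv v (φ (g l')) ≤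
            1 * fv v (φ (g l')) := mul_le_mul_of_nonneg_right (hcoef l') (apply_nonneg _ _)
        _ = fv v (φ (g l')) := one_mul _
        _ ≤ fv v (φ (g l0)) := hle l'
    rw [← hval, map_mul, map_mul, map_mul, map_mul] at hsum
    have hi' : fv v (φ (g' i)) = ⨆ i, fv v (φ (g' i)) := hi
    have hk0' : fv v (φ (y 0 k0)) = ⨆ k, fv v (φ (y 0 k)) := hk0
    have hk1' : fv v (φ (y 1 k1)) = ⨆ k, fv v (φ (y 1 k)) := hk1
    have hk2' : fv v (φ (y 2 k2)) = ⨆ k, fv v (φ (y 2 k)) := hk2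
    have hl0' : fv v (φ (g l0)) = ⨆ l, fv v (φ (g l)) := hl0
    rw [hi', hk0', hk1', hk2', hl0'] at hsum
    have hstep := log_step p' (py 0) (py 1) (py 2) hθ hsum
    refine hstep.trans ?_
    rw [Fin.sum_univ_three]
    have m0 : -Real.log (⨆ i, fv v (φ (g' i))) ≤ mL (fun i => fv v (φ (g' i))) := le_max_right _ _
    have m1 : -Real.log (⨆ i, fv v (φ (y 0 i))) ≤ mL (fun k => fv v (φ (y 0 k))) := le_max_right _ _
    have m2 : -Real.log (⨆ i, fv v (φ (y 1 i))) ≤ mL (fun k => fv v (φ (y 1 k))) := le_max_right _ _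
    have m3 : -Real.log (⨆ i, fv v (φ (y 2 i))) ≤ mL (fun k => fv v (φ (y 2 k))) := le_max_right _ _
    linarith
  · intro w
    obtain ⟨p', py⟩ := hpos (fun z => w z) (fun z hz => InfinitePlace.pos_iff.2 hz)
    have hlog : 0 ≤ Real.log (((r : ℝ) + 1) * (B * R ^ e)) := Real.log_nonneg hle
    have hs : 0 ≤ ∑ j, mL (fun k => w (φ (y j k))) := Finset.sum_nonneg fun j _ => mL_nonneg _
    have h0 := mL_nonneg (fun i => w (φ (g' i)))
    refine mL_le (by positivity) ?_
    intro hG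
    obtain ⟨i, hi⟩ := exists_max (fun i => w (φ (g' i)))
    obtain ⟨k0, hk0⟩ := exists_max (fun k => w (φ (y 0 k)))
    obtain ⟨k1, hk1⟩ := exists_max (fun k => w (φ (y 1 k)))
    obtain ⟨k2, hk2⟩ := exists_max (fun k => w (φ (y 2 k)))
    obtain ⟨l0, hl0⟩ := exists_max (fun l => w (φ (g l)))
    have hle' : ∀ l', w (φ (g l')) ≤ w (φ (g l0)) := fun l' => by
      rw [hl0]
      exact le_ciSup (f := fun l => w (φ (g l))) (Set.finite_range _).bddAbove l'
    have hg0 : w (aeval (φ (tt A)) h) < 1 := by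
      rw [← hx]
      exact (le_ciSup (f := fun l => w (φ (g l))) (Set.finite_range _).bddAbove 0).trans_lt hG
    have hlx := hli w hg0
    have hcoef : ∀ l', w (φ (c i k0 k1 k2 l')) ≤ B * R ^ e := by
      intro l'
      refine (hinf w (i, k0, k1, k2, l')).trans ?_
      apply mul_le_mul_of_nonneg_left _ (by linarith)
      exact pow_le_pow_left₀ (by positivity) (max_le hlx hR) _
    have hsum : w (∑ l', φ (c i k0 k1 k2 l') * φ (g l')) ≤
        ((r : ℝ) + 1) * (B * R ^ e) * w (φ (g l0)) := by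
      calc w (∑ l', φ (c i k0 k1 k2 l') * φ (g l')) ≤
            ∑ l', w (φ (c i k0 k1 k2 l') * φ (g l')) := by
            exact w.1.sum_le _ _
        _ ≤ ∑ _l' : Fin (r + 1), (B * R ^ e) * w (φ (g l0)) := by
            apply Finset.sum_le_sum
            intro l' _
            rw [map_mul]
            exact mul_le_mul (hcoef l') (hle' l') (apply_nonneg _ _) (by positivity)
        _ = ((r : ℝ) + 1) * (B * R ^ e) * w (φ (g l0)) := by
            rw [Finset.sum_const, Finset.card_univ, Fintype.card_fin, nsmul_eq_mul]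
            push_cast
            ring
    rw [← hval, map_mul, map_mul, map_mul] at hsum
    have hi' : w (φ (g' i)) = ⨆ i, w (φ (g' i)) := hi
    have hk0' : w (φ (y 0 k0)) = ⨆ k, w (φ (y 0 k)) := hk0
    have hk1' : w (φ (y 1 k1)) = ⨆ k, w (φ (y 1 k)) := hk1
    have hk2' : w (φ (y 2 k2)) = ⨆ k, w (φ (y 2 k)) := hk2
    have hl0' : w (φ (g l0)) = ⨆ l, w (φ (g l)) := hl0
    rw [hi', hk0', hk1', hk2', hl0'] at hsum
    have hM : (0 : ℝ) < ((r : ℝ) + 1) * (B * R ^ e) := by linarith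
    have hsum' : (((r : ℝ) + 1) * (B * R ^ e))⁻¹ * ((⨆ i, w (φ (g' i))) *
        ((⨆ k, w (φ (y 0 k))) * ((⨆ k, w (φ (y 1 k))) * ⨆ k, w (φ (y 2 k))))) ≤
        ⨆ l, w (φ (g l)) := by
      rw [inv_mul_le_iff₀ hM]
      exact hsum
    have hstep := log_step p' (py 0) (py 1) (py 2) (inv_pos.2 hM) hsum'
    refine hstep.trans ?_
    rw [Fin.sum_univ_three, Real.log_inv, neg_neg]
    have m0 : -Real.log (⨆ i, w (φ (g' i))) ≤ mL (fun i => w (φ (g' i))) := le_max_right _ _
    have m1 : -Real.log (⨆ i, w (φ (y 0 i))) ≤ mL (fun k => w (φ (y 0 k))) := le_max_right _ _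
    have m2 : -Real.log (⨆ i, w (φ (y 1 i))) ≤ mL (fun k => w (φ (y 1 k))) := le_max_right _ _
    have m3 : -Real.log (⨆ i, w (φ (y 2 i))) ≤ mL (fun k => w (φ (y 2 k))) := le_max_right _ _
    linarith

/-- the sum of the local heights of a natural number -/
lemma sum_fv_nat {L : Type} [Field L] [NumberField L] (N : ℕ) (hN : N ≠ 0)
    (s : Finset (HeightOneSpectrum (𝓞 L))) :
    ∑ v ∈ s, -Real.log (fv v (N : L)) ≤ Module.finrank ℚ L * Real.log N := by
  classical
  obtain ⟨T, hT⟩ : ∃ T, T = (Pool.Agent.W125.CV.max_support_finite ((N : L)⁻¹)).toFinset ∪ s :=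
    ⟨_, rfl⟩
  have h1 := Pool.Agent.W125.CV.height_sum ((N : L)⁻¹) T (fun v hv => by
    rw [hT]
    exact Finset.mem_union_left _ ((Set.Finite.mem_toFinset _).2 hv))
  have h2 : Real.log (Height.mulHeight₁ ((N : L)⁻¹)) = Module.finrank ℚ L * Real.log N := by
    rw [Height.mulHeight₁_inv]
    exact Pool.Agent.W223.AC.log_height_nat N hN
  rw [h2] at h1
  have h3 : 0 ≤ ∑ w : InfinitePlace L, (w.mult : ℝ) * Real.log (max (w ((N : L)⁻¹)) 1) :=
    Finset.sum_nonneg fun w _ => mul_nonneg (Nat.cast_nonneg _)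
      (Real.log_nonneg (le_max_right _ _))
  have h4 : ∑ v ∈ s, -Real.log (fv v (N : L)) ≤
      ∑ v ∈ T, Real.log (max (fv v ((N : L)⁻¹)) 1) := by
    calc ∑ v ∈ s, -Real.log (fv v (N : L)) ≤ ∑ v ∈ s, Real.log (max (fv v ((N : L)⁻¹)) 1) := by
          apply Finset.sum_le_sum
          intro v _
          rw [map_inv₀, ← Real.log_inv]
          exact Real.log_le_log (inv_pos.2 (fv_nat_pos v hN)) (le_max_left _ _)
      _ ≤ ∑ v ∈ T, Real.log (max (fv v ((N : L)⁻¹)) 1) := by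
          apply Finset.sum_le_sum_of_subset_of_nonneg
          · rw [hT]
            exact Finset.subset_union_right
          · intro v _ _
            exact Real.log_nonneg (le_max_right _ _)
  linarith

end Pool.Agent.Q128.SDF
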