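import Mathlib
import Pool.Agent.Q128.SDF.Sieve

/-!
# Many even `n` such that `(n - 1) n (n + 1)` is squarefree
-/

set_option autoImplicit false

namespace Pool.Agent.Q128.SDF

open Finset

lemma not_sqfree3 {m c : ℕ} (hc : c = 1 ∨ c = 2 ∨ c = 3) (h : ¬ Squarefree (36 * m + c)) :
    ∃ n, 5 ≤ n ∧ n ^ 2 ≤ 36 * m + c ∧ n ^ 2 ∣ 36 * m + c ∧ Nat.Coprime 36 (n ^ 2) := by
  rw [Nat.squarefree_iff_prime_squarefree] at h
  push Not at h
  obtain ⟨p, hp, hd⟩ := h
  have hpos : 0 < 36 * m + c := by rcases hc with rfl | rfl | rfl <;> omega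
  have h2 : p ≠ 2 := by
    rintro rfl
    rcases hc with rfl | rfl | rfl <;> omega
  have h3 : p ≠ 3 := by
    rintro rfl
    rcases hc with rfl | rfl | rfl <;> omega
  have h4 : p ≠ 4 := by
    rintro rfl
    exact absurd hp (by norm_num)
  have h1 := hp.two_le
  refine ⟨p, by omega, ?_, ?_, ?_⟩
  · rw [pow_two]
    exact Nat.le_of_dvd hpos hd
  · rw [pow_two]
    exact hd
  · apply Nat.Coprime.pow_right
    have h5 : Nat.Coprime 2 p := (Nat.coprime_primes Nat.prime_two hp).2 (Ne.symm h2)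
    have h6 : Nat.Coprime 3 p := (Nat.coprime_primes Nat.prime_three hp).2 (Ne.symm h3)
    have h7 : (36 : ℕ) = 2 ^ 2 * 3 ^ 2 := by norm_num
    rw [h7]
    exact Nat.Coprime.mul_left (Nat.Coprime.pow_left 2 h5) (Nat.Coprime.pow_left 2 h6)

lemma squarefree_three {m : ℕ} (h1 : Squarefree (36 * m + 1)) (h2 : Squarefree (36 * m + 2))
    (h3 : Squarefree (36 * m + 3)) :
    Squarefree ((36 * m + 1) * (36 * m + 2) * (36 * m + 3)) := by
  have hco : Nat.Coprime (36 * m + 1) (36 * m + 2) := by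
    rw [show 36 * m + 2 = (36 * m + 1) + 1 from rfl]
    exact (Nat.coprime_self_add_right).2 (Nat.coprime_one_right _)
  have hco2 : Nat.Coprime (36 * m + 2) (36 * m + 3) := by
    rw [show 36 * m + 3 = (36 * m + 2) + 1 from rfl]
    exact (Nat.coprime_self_add_right).2 (Nat.coprime_one_right _)
  have hco3 : Nat.Coprime (36 * m + 1) (36 * m + 3) := by
    rw [show 36 * m + 3 = (36 * m + 1) + 2 from rfl]
    refine (Nat.coprime_self_add_right).2 ?_
    rw [Nat.coprime_two_right]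
    exact ⟨18 * m, by ring⟩
  exact (Nat.squarefree_mul (Nat.Coprime.mul_left hco3 hco2)).2
    ⟨(Nat.squarefree_mul hco).2 ⟨h1, h2⟩, h3⟩

/-- at least `M / 8` of the numbers `m < M` have `(36 m + 1) (36 m + 2) (36 m + 3)` squarefree, for
`M` large -/
theorem many3 (M : ℕ) (hM : 40000 ≤ M) :
    (M : ℝ) / 8 ≤ ((range M).filter fun m =>
      Squarefree ((36 * m + 1) * (36 * m + 2) * (36 * m + 3))).card := by
  classical
  obtain ⟨R, hR⟩ : ∃ R, R = Nat.sqrt (36 * M) := ⟨_, rfl⟩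
  have hR1 : R * R ≤ 36 * M := by rw [hR]; exact Nat.sqrt_le _
  have hR2 : 36 * M < (R + 1) * (R + 1) := by rw [hR]; exact Nat.lt_succ_sqrt _
  have hsub : ((range M).filter fun m =>
        ¬ Squarefree ((36 * m + 1) * (36 * m + 2) * (36 * m + 3))) ⊆
      (Finset.Ico 5 (R + 5)).biUnion fun n =>
        (((range M).filter fun m => n ^ 2 ∣ 36 * m + 1 ∧ Nat.Coprime 36 (n ^ 2)) ∪
        ((range M).filter fun m => n ^ 2 ∣ 36 * m + 2 ∧ Nat.Coprime 36 (n ^ 2))) ∪
        ((range M).filter fun m => n ^ 2 ∣ 36 * m + 3 ∧ Nat.Coprime 36 (n ^ 2)) := by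
    intro m hm
    rw [mem_filter, mem_range] at hm
    obtain ⟨hm1, hm2⟩ := hm
    have key : ∀ c, (c = 1 ∨ c = 2 ∨ c = 3) → ¬ Squarefree (36 * m + c) →
        ∃ n ∈ Finset.Ico 5 (R + 5), m ∈ ((range M).filter fun m => n ^ 2 ∣ 36 * m + c ∧
          Nat.Coprime 36 (n ^ 2)) := by
      intro c hc h
      obtain ⟨n, h1, h2, h3, h4⟩ := not_sqfree3 hc h
      refine ⟨n, ?_, ?_⟩
      · rw [Finset.mem_Ico]
        refine ⟨h1, ?_⟩
        by_contra hcon
        rw [not_lt] at hcon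
        have h5 : n ^ 2 ≤ 36 * M := by
          rcases hc with rfl | rfl | rfl <;> omega
        nlinarith
      · rw [mem_filter, mem_range]
        exact ⟨hm1, h3, h4⟩
    rw [mem_biUnion]
    by_cases h1 : Squarefree (36 * m + 1)
    · by_cases h2 : Squarefree (36 * m + 2)
      · by_cases h3 : Squarefree (36 * m + 3)
        · exact absurd (squarefree_three h1 h2 h3) hm2
        · obtain ⟨n, h1, h2⟩ := key 3 (by omega) h3
          exact ⟨n, h1, mem_union_right _ h2⟩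
      · obtain ⟨n, h1, h2⟩ := key 2 (by omega) h2
        exact ⟨n, h1, mem_union_left _ (mem_union_right _ h2)⟩
    · obtain ⟨n, h1, h2⟩ := key 1 (by omega) h1
      exact ⟨n, h1, mem_union_left _ (mem_union_left _ h2)⟩
  have hbad : (((range M).filter fun m =>
      ¬ Squarefree ((36 * m + 1) * (36 * m + 2) * (36 * m + 3))).card : ℝ) ≤
      3 / 4 * M + 3 * R := by
    have h1 := (card_le_card hsub).trans card_biUnion_le
    have h2 : (((range M).filter fun m =>
        ¬ Squarefree ((36 * m + 1) * (36 * m + 2) * (36 * m + 3))).card : ℝ) ≤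
        ∑ n ∈ Finset.Ico 5 (R + 5), (3 * ((M : ℝ) * (1 / (n ^ 2 : ℕ)) + 1)) := by
      refine (Nat.cast_le.2 h1).trans ?_
      push_cast
      apply sum_le_sum
      intro n hn
      rw [Finset.mem_Ico] at hn
      have h3 := card_bad' M 1 n hn.1
      have h4 := card_bad' M 2 n hn.1
      have h6 := card_bad' M 3 n hn.1
      have h5 : (((((range M).filter fun m => n ^ 2 ∣ 36 * m + 1 ∧ Nat.Coprime 36 (n ^ 2)) ∪
        ((range M).filter fun m => n ^ 2 ∣ 36 * m + 2 ∧ Nat.Coprime 36 (n ^ 2))) ∪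
        ((range M).filter fun m => n ^ 2 ∣ 36 * m + 3 ∧ Nat.Coprime 36 (n ^ 2))).card : ℝ) ≤
        (((range M).filter fun m => n ^ 2 ∣ 36 * m + 1 ∧ Nat.Coprime 36 (n ^ 2)).card : ℝ) +
        (((range M).filter fun m => n ^ 2 ∣ 36 * m + 2 ∧ Nat.Coprime 36 (n ^ 2)).card : ℝ) +
        (((range M).filter fun m => n ^ 2 ∣ 36 * m + 3 ∧ Nat.Coprime 36 (n ^ 2)).card : ℝ) := by
        have h7 := card_union_le ((range M).filter fun m => n ^ 2 ∣ 36 * m + 1 ∧
          Nat.Coprime 36 (n ^ 2)) ((range M).filter fun m => n ^ 2 ∣ 36 * m + 2 ∧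
          Nat.Coprime 36 (n ^ 2))
        have h8 := card_union_le (((range M).filter fun m => n ^ 2 ∣ 36 * m + 1 ∧
          Nat.Coprime 36 (n ^ 2)) ∪ ((range M).filter fun m => n ^ 2 ∣ 36 * m + 2 ∧
          Nat.Coprime 36 (n ^ 2))) ((range M).filter fun m => n ^ 2 ∣ 36 * m + 3 ∧
          Nat.Coprime 36 (n ^ 2))
        have h9 := h8.trans (Nat.add_le_add_right h7 _)
        exact_mod_cast h9
      push_cast at h3 h4 h6
      linarith
    rw [← mul_sum, sum_add_distrib, ← mul_sum] at h2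
    have h6 := sum_inv R
    have h7 : ∑ n ∈ Finset.Ico 5 (R + 5), (1 : ℝ) = R := by simp
    rw [h7] at h2
    have h8 : ∑ n ∈ Finset.Ico 5 (R + 5), (1 : ℝ) / (n ^ 2 : ℕ) ≤ 1 / 4 := by
      have : (0 : ℝ) ≤ 1 / (R + 4) := by positivity
      linarith
    have hM0 : (0 : ℝ) ≤ M := Nat.cast_nonneg _
    nlinarith
  have hR3 : 24 * R ≤ M := by
    by_contra hcon
    rw [not_le] at hcon
    nlinarith
  have hR4 : 24 * (R : ℝ) ≤ M := by exact_mod_cast hR3
  have hall : ((range M).filter fun m =>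
        Squarefree ((36 * m + 1) * (36 * m + 2) * (36 * m + 3))).card +
      ((range M).filter fun m =>
        ¬ Squarefree ((36 * m + 1) * (36 * m + 2) * (36 * m + 3))).card = M := by
    rw [card_filter_add_card_filter_not, card_range]
  have hall' : (((range M).filter fun m =>
        Squarefree ((36 * m + 1) * (36 * m + 2) * (36 * m + 3))).card : ℝ) +
      (((range M).filter fun m =>
        ¬ Squarefree ((36 * m + 1) * (36 * m + 2) * (36 * m + 3))).card : ℝ) = M := by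
    exact_mod_cast hall
  linarith

/-- For all large `X` there are at least `X / 400` even numbers `t` between `B` and `X` such that
`(t - 1) t (t + 1)` is squarefree; they are written `t = s + 1`. -/
theorem many_t3 (B : ℝ) : ∃ X₀ : ℝ, 1 ≤ X₀ ∧ ∀ X : ℝ, X₀ ≤ X → ∃ s : Finset ℕ,
    X / 400 ≤ s.card ∧ ∀ t ∈ s, B ≤ t ∧ ((t + 1 : ℕ) : ℝ) ≤ X ∧ Even (t + 1) ∧
      Squarefree (t * (t + 1) * (t + 2)) := by
  classical
  refine ⟨max (36 * 40002) (16000 * |B|), le_max_of_le_left (by norm_num), ?_⟩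
  intro X hX
  have hX1 : (36 * 40002 : ℝ) ≤ X := (le_max_left _ _).trans hX
  have hX2 : 16000 * |B| ≤ X := (le_max_right _ _).trans hX
  obtain ⟨M, hM⟩ : ∃ M : ℕ, M = ⌊X / 36⌋₊ := ⟨_, rfl⟩
  have hM1 : (M : ℝ) ≤ X / 36 := by rw [hM]; exact Nat.floor_le (by positivity)
  have hM2 : X / 36 < M + 1 := by rw [hM]; exact Nat.lt_floor_add_one _
  have hM3 : 40000 ≤ M := by
    have : (40000 : ℝ) < M := by linarith
    exact_mod_cast this.le
  have h1 := many3 M hM3
  obtain ⟨s, hs⟩ : ∃ s, s = (Finset.range M).filter fun m =>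
    Squarefree ((36 * m + 1) * (36 * m + 2) * (36 * m + 3)) := ⟨_, rfl⟩
  rw [← hs] at h1
  obtain ⟨s1, hs1⟩ : ∃ s1, s1 = s.image fun m => 36 * m + 1 := ⟨_, rfl⟩
  have hc1 : s1.card = s.card := by
    rw [hs1]
    apply Finset.card_image_of_injective
    intro x y hxy
    have : 36 * x + 1 = 36 * y + 1 := hxy
    omega
  obtain ⟨s2, hs2⟩ : ∃ s2, s2 = s1 \ Finset.range ⌈|B|⌉₊ := ⟨_, rfl⟩
  have hc2 : s1.card ≤ s2.card + ⌈|B|⌉₊ := by
    have h3 := Finset.le_card_sdiff (Finset.range ⌈|B|⌉₊) s1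
    rw [Finset.card_range, ← hs2] at h3
    omega
  refine ⟨s2, ?_, ?_⟩
  · have h4 : (s1.card : ℝ) ≤ s2.card + ⌈|B|⌉₊ := by exact_mod_cast hc2
    have h5 : (⌈|B|⌉₊ : ℝ) < |B| + 1 := Nat.ceil_lt_add_one (abs_nonneg B)
    rw [hc1] at h4
    linarith
  · intro t ht
    rw [hs2, Finset.mem_sdiff, Finset.mem_range, not_lt, hs1, Finset.mem_image] at ht
    obtain ⟨⟨m, hm, rfl⟩, hB⟩ := ht
    rw [hs, Finset.mem_filter, Finset.mem_range] at hm
    refine ⟨?_, ?_, ?_, hm.2⟩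
    · exact (le_abs_self B).trans (Nat.ceil_le.1 hB)
    · have h6 : ((m + 1 : ℕ) : ℝ) ≤ M := by exact_mod_cast hm.1
      push_cast at h6 ⊢
      linarith
    · exact ⟨18 * m + 1, by ring⟩

end Pool.Agent.Q128.SDF
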