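import Mathlib
import Pool.Agent.Q128.SDF.Sieve3
import Pool.Agent.Q128.SDF.Fam
import Pool.Agent.Q128.SDF.Val

/-!
# The points `(n ^ 2 : -(n ^ 2 - 1) : -1)` with `(n - 1) n (n + 1)` squarefree, `n` even
-/

set_option autoImplicit false

namespace Pool.Agent.Q128.SDF

open NumberField Height IsDedekindDomain
open scoped Polynomial
open Polynomial (X C)
open Pool.Agent.Results.MP_a793bb_nt.SmallDigitPoints (Small point unequal logN)
open Pool.Agent.Results.MP_71c16a_nt.SmallDigitPoints (Belongs Composed)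

/-- the numbers `t`, `t - 1` and `t + 1` -/
noncomputable def F3 : Fin 3 → (𝓞 ℚ)[X] := ![X, X - 1, X + 1]

def bb3 : Fin 3 → 𝓞 ℚ := ![1, -1, -1]

def e33 : Fin 3 → Fin 3 → ℕ := ![![2, 0, 0], ![0, 1, 1], ![0, 0, 0]]

lemma F3_zero (t : 𝓞 ℚ) : (F3 0).eval t = t := Polynomial.eval_X

lemma F3_one (t : 𝓞 ℚ) : (F3 1).eval t = t - 1 := by
  show (X - 1 : (𝓞 ℚ)[X]).eval t = t - 1
  simp

lemma F3_two (t : 𝓞 ℚ) : (F3 2).eval t = t + 1 := by
  show (X + 1 : (𝓞 ℚ)[X]).eval t = t + 1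
  simp

lemma small3 (t : ℕ) (hev : Even (t : ℤ)) {D : ℕ} (hD : 3 ≤ D) {δ T : ℝ} (hδ : 0 < δ) (hT : 1 ≤ T)
    (hT2 : 2 ≤ T ^ δ) (ht : T ≤ t) : Small D δ T (t : 𝓞 ℚ) F3 bb3 e33 := by
  have h1 : 1 ≤ T ^ δ := Real.one_le_rpow hT hδ.le
  have hc1 : ∀ j : ℕ, ∀ σ : ℚ →+* ℂ, ‖σ ((X : (𝓞 ℚ)[X]).coeff j : 𝓞 ℚ)‖ ≤ 1 := by
    intro j σ
    rw [Polynomial.coeff_X]
    split_ifs <;> simp
  have hc2 : ∀ j : ℕ, ∀ σ : ℚ →+* ℂ, ‖σ ((X + 1 : (𝓞 ℚ)[X]).coeff j : 𝓞 ℚ)‖ ≤ 1 := by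
    intro j σ
    rw [Polynomial.coeff_add, Polynomial.coeff_X, Polynomial.coeff_one]
    split_ifs with h2 h3 h3
    · omega
    · simp
    · simp
    · simp
  have hc3 : ∀ j : ℕ, ∀ σ : ℚ →+* ℂ, ‖σ ((X - 1 : (𝓞 ℚ)[X]).coeff j : 𝓞 ℚ)‖ ≤ 1 := by
    intro j σ
    rw [Polynomial.coeff_sub, Polynomial.coeff_X, Polynomial.coeff_one]
    split_ifs with h2 h3 h3
    · omega
    · simp
    · simp
    · simp
  have hn1 : (X + 1 : (𝓞 ℚ)[X]).natDegree = 1 := by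
    rw [← Polynomial.C_1, Polynomial.natDegree_X_add_C]
  have hn2 : (X - 1 : (𝓞 ℚ)[X]).natDegree = 1 := by
    rw [← Polynomial.C_1, Polynomial.natDegree_X_sub_C]
  have hcop : IsCoprime ((t : 𝓞 ℚ) - 1) ((t : 𝓞 ℚ) + 1) := by
    obtain ⟨k, hk⟩ := hev
    have hk' : (t : 𝓞 ℚ) = (k : 𝓞 ℚ) + k := by exact_mod_cast congrArg (Int.cast : ℤ → 𝓞 ℚ) hk
    rw [hk']
    exact ⟨(k : 𝓞 ℚ) - 1 + (-1) * ((k : 𝓞 ℚ) + k) + 0, -((k : 𝓞 ℚ) - 1) + ((k : 𝓞 ℚ) + k) - 1 + 0,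
      by ring⟩
  refine ⟨?_, ?_, ?_, ?_, ?_, ?_, ?_, ?_, ?_, ?_⟩
  · intro σ
    have : ((t : 𝓞 ℚ) : ℚ) = (t : ℚ) := by simp
    rw [this, map_natCast, Complex.norm_natCast]
    exact ht
  · intro i
    fin_cases i
    · show 0 < (X : (𝓞 ℚ)[X]).natDegree
      rw [Polynomial.natDegree_X]
      norm_num
    · show 0 < (X - 1 : (𝓞 ℚ)[X]).natDegree
      rw [hn2]
      norm_num
    · show 0 < (X + 1 : (𝓞 ℚ)[X]).natDegree
      rw [hn1]
      norm_num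
  · rw [Fin.sum_univ_three]
    have h2 : (F3 0).natDegree = 1 := Polynomial.natDegree_X
    have h3 : (F3 1).natDegree = 1 := hn2
    have h4 : (F3 2).natDegree = 1 := hn1
    omega
  · intro i j σ
    fin_cases i
    · exact (hc1 j σ).trans h1
    · exact (hc3 j σ).trans h1
    · exact (hc2 j σ).trans h1
  · intro i σ
    have h2 : (F3 i).leadingCoeff = 1 := by
      fin_cases i
      · exact Polynomial.leadingCoeff_X
      · show (X - 1 : (𝓞 ℚ)[X]).leadingCoeff = 1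
        rw [← Polynomial.C_1, Polynomial.leadingCoeff_X_sub_C]
      · show (X + 1 : (𝓞 ℚ)[X]).leadingCoeff = 1
        rw [← Polynomial.C_1, Polynomial.leadingCoeff_X_add_C]
    rw [h2]
    have h3 : ‖σ ((1 : 𝓞 ℚ) : ℚ)‖ = 1 := by simp
    rw [h3]
    exact Real.rpow_le_one_of_one_le_of_nonpos hT (by linarith)
  · intro i σ
    fin_cases i
    · exact hc1 0 σ
    · exact hc3 0 σ
    · exact hc2 0 σ
  · have h01 : IsCoprime ((F3 0).eval (t : 𝓞 ℚ)) ((F3 1).eval (t : 𝓞 ℚ)) := by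
      rw [F3_zero, F3_one]
      exact ⟨1, -1, by ring⟩
    have h02 : IsCoprime ((F3 0).eval (t : 𝓞 ℚ)) ((F3 2).eval (t : 𝓞 ℚ)) := by
      rw [F3_zero, F3_two]
      exact ⟨-1, 1, by ring⟩
    have h12 : IsCoprime ((F3 1).eval (t : 𝓞 ℚ)) ((F3 2).eval (t : 𝓞 ℚ)) := by
      rw [F3_one, F3_two]
      exact hcop
    intro i j hij
    fin_cases i <;> fin_cases j
    · exact absurd rfl hij
    · exact h01
    · exact h02
    · exact h01.symm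
    · exact absurd rfl hij
    · exact h12
    · exact h02.symm
    · exact h12.symm
    · exact absurd rfl hij
  · intro k
    fin_cases k <;> simp [bb3]
  · intro k σ
    refine le_trans (le_of_eq ?_) h1
    fin_cases k <;> simp [bb3]
  · intro k
    refine le_trans ?_ hT2
    rw [Fin.sum_univ_three]
    fin_cases k <;> simp [e33]

lemma unequal3_eq : unequal e33 = Finset.univ := by
  unfold Pool.Agent.Results.MP_a793bb_nt.SmallDigitPoints.unequal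
  apply Finset.filter_true_of_mem
  intro i _
  fin_cases i <;> simp [e33]

lemma point3_eq (t : ℕ) : point (t : 𝓞 ℚ) F3 bb3 e33 =
    ![(t : 𝓞 ℚ) ^ 2, -(((t : 𝓞 ℚ) - 1) * ((t : 𝓞 ℚ) + 1)), -1] := by
  funext k
  unfold Pool.Agent.Results.MP_a793bb_nt.SmallDigitPoints.point
  rw [Fin.prod_univ_three, F3_zero, F3_one, F3_two]
  fin_cases k <;> simp [bb3, e33]

lemma squarefree3 (t : ℕ) (h : Squarefree (t * (t + 1) * (t + 2))) :
    Squarefree (Ideal.span {∏ i ∈ unequal e33, (F3 i).eval ((t + 1 : ℕ) : 𝓞 ℚ)}) := by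
  rw [unequal3_eq, Fin.prod_univ_three, F3_zero, F3_one, F3_two]
  apply squarefree_span
  have := squarefree_nat h
  push_cast at this ⊢
  have h1 : ((t : 𝓞 ℚ) + 1) * ((t : 𝓞 ℚ) + 1 - 1) * ((t : 𝓞 ℚ) + 1 + 1) =
      (t : 𝓞 ℚ) * ((t : 𝓞 ℚ) + 1) * ((t : 𝓞 ℚ) + 2) := by ring
  rw [h1]
  exact this

/-- the denominator -/
def WW (a : Fin 3 → ℚ) (p q : ℚ) : ℚ := p * (a 2 - a 0) - q * (a 1 - a 2)

/-- the point of the line belonging to `(p : q : -p - q)` -/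
def xx (a : Fin 3 → ℚ) (p q : ℚ) : ℚ := a 0 + p * (a 2 - a 0) * (a 1 - a 0) / WW a p q

lemma belongs_gen (a : Fin 3 → ℚ) (ha : Function.Injective a) (P : Fin 3 → 𝓞 ℚ)
    (hsum : (P 0 : ℚ) + P 1 + P 2 = 0) (hW : WW a (P 0) (P 1) ≠ 0) :
    Belongs a P (xx a (P 0) (P 1)) := by
  have h10 : a 1 - a 0 ≠ 0 := sub_ne_zero.2 fun h => absurd (ha h) (by decide)
  have h20 : a 2 - a 0 ≠ 0 := sub_ne_zero.2 fun h => absurd (ha h) (by decide)
  have h12 : a 1 - a 2 ≠ 0 := sub_ne_zero.2 fun h => absurd (ha h) (by decide)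
  obtain ⟨p, hp⟩ : ∃ p : ℚ, p = (P 0 : ℚ) := ⟨_, rfl⟩
  obtain ⟨q, hq⟩ : ∃ q : ℚ, q = (P 1 : ℚ) := ⟨_, rfl⟩
  rw [← hp, ← hq] at hW ⊢
  have hr : (P 2 : ℚ) = -p - q := by rw [hp, hq]; linarith
  refine ⟨WW a p q / ((a 1 - a 2) * (a 2 - a 0) * (a 1 - a 0)), ?_, ?_⟩
  · positivity
  · intro j
    fin_cases j
    · show (P 0 : ℚ) = WW a p q / ((a 1 - a 2) * (a 2 - a 0) * (a 1 - a 0)) *
        ((a 1 : ℚ) - (a 2 : ℚ)) * (xx a p q - (a 0 : ℚ))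
      rw [← hp]
      unfold xx
      field_simp
      ring
    · show (P 1 : ℚ) = WW a p q / ((a 1 - a 2) * (a 2 - a 0) * (a 1 - a 0)) *
        ((a 2 : ℚ) - (a 0 : ℚ)) * (xx a p q - (a 1 : ℚ))
      rw [← hq]
      unfold xx
      field_simp
      unfold WW
      ring
    · show (P 2 : ℚ) = WW a p q / ((a 1 - a 2) * (a 2 - a 0) * (a 1 - a 0)) *
        ((a 0 : ℚ) - (a 1 : ℚ)) * (xx a p q - (a 2 : ℚ))
      rw [hr]
      unfold xx
      field_simp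
      unfold WW
      ring

lemma belongs_mob {K : Type} [Field K] [NumberField K] (a : Fin 3 → ℚ) (ha : Function.Injective a)
    (P : Fin 3 → 𝓞 K) {x : K} (hb : Belongs a P x) (hP : ∀ k, P k ≠ 0) :
    (∀ j, x ≠ (a j : K)) ∧ Pool.Agent.W223.AC.mob a x = -((P 0 : K) / (P 2 : K)) := by
  have hPK : ∀ k, (P k : K) ≠ 0 := fun k => RingOfIntegers.coe_ne_zero_iff.mpr (hP k)
  obtain ⟨s, hs0, hs⟩ := hb
  have hxa : ∀ j, x ≠ (a j : K) := by
    intro j hj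
    apply hPK j
    rw [hs j, hj, sub_self, mul_zero]
  refine ⟨hxa, ?_⟩
  have hne : ∀ i j : Fin 3, i ≠ j → (a i : K) - (a j : K) ≠ 0 := fun i j hij =>
    sub_ne_zero.2 fun h => hij (ha (by exact_mod_cast h))
  have h1 := sub_ne_zero.2 (hxa 2)
  have h2 := hne 1 0 (by decide)
  have h2' := hne 0 1 (by decide)
  have e0 : (P 0 : K) = s * ((a 1 : K) - (a 2 : K)) * (x - (a 0 : K)) := hs 0
  have e2 : (P 2 : K) = s * ((a 0 : K) - (a 1 : K)) * (x - (a 2 : K)) := hs 2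
  rw [e0, e2]
  unfold Pool.Agent.W223.AC.mob
  field_simp
  ring

lemma val_exp {K : Type} [Field K] [NumberField K] (y : 𝓞 K) (hy : y ≠ 0)
    (v : HeightOneSpectrum (𝓞 K)) : ∃ k : ℕ, v.valuation K (y : K) = WithZero.exp (-(k : ℤ)) := by
  rw [HeightOneSpectrum.valuation_of_algebraMap, HeightOneSpectrum.intValuation_if_neg v hy]
  exact ⟨_, rfl⟩

end Pool.Agent.Q128.SDF
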