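import Mathlib
import Pool.Agent.Q128.SDF.Square

/-!
# Many rational points composed of numbers with small digits which meet `a_0` with even multiplicity
-/

set_option autoImplicit false

namespace Pool.Agent.Q128.SDF

open NumberField Height IsDedekindDomain
open scoped Polynomial
open Pool.Agent.W337.AC.MOBC
open Pool.Agent.W223.AC (pt)
open Pool.Agent.W223.CV
open Pool.Agent.Results.MP_a793bb_nt.SmallDigitPoints (Small point unequal logN)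
open Pool.Agent.Results.MP_71c16a_nt.SmallDigitPoints (Belongs Composed)

lemma coe_sq (t : ℕ) : ((point (t : 𝓞 ℚ) F3 bb3 e33 0 : 𝓞 ℚ) : ℚ) = (t : ℚ) ^ 2 := by
  rw [point3_eq]
  show (((t : 𝓞 ℚ) ^ 2 : 𝓞 ℚ) : ℚ) = (t : ℚ) ^ 2
  simp

lemma coe_mid (t : ℕ) : ((point (t : 𝓞 ℚ) F3 bb3 e33 1 : 𝓞 ℚ) : ℚ) = -((t : ℚ) ^ 2 - 1) := by
  rw [point3_eq]
  show ((-(((t : 𝓞 ℚ) - 1) * ((t : 𝓞 ℚ) + 1)) : 𝓞 ℚ) : ℚ) = -((t : ℚ) ^ 2 - 1)
  have : ((-(((t : 𝓞 ℚ) - 1) * ((t : 𝓞 ℚ) + 1)) : 𝓞 ℚ) : ℚ) = -(((t : ℚ) - 1) * ((t : ℚ) + 1)) := by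
    simp
  rw [this]
  ring

lemma coe_last (t : ℕ) : ((point (t : 𝓞 ℚ) F3 bb3 e33 2 : 𝓞 ℚ) : ℚ) = -1 := by
  rw [point3_eq]
  show (((-1 : 𝓞 ℚ)) : ℚ) = -1
  simp

/-- Many rational numbers `x` are composed of numbers with small digits and meet `a_0` with even
multiplicities outside a fixed finite set of primes. -/
theorem many_sq (a : Fin 3 → ℚ) (ha : Function.Injective a) :
    ∃ c : ℝ, 0 < c ∧ ∀ (D : ℕ) (δ : ℝ), 3 ≤ D → 0 < δ → ∃ T₁ : ℝ, ∀ T : ℝ, T₁ ≤ T →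
      ∃ X₀ : ℝ, ∀ B : ℝ, X₀ ≤ B →
      ∃ E : Finset ℚ, c * √B ≤ E.card ∧ ∀ x ∈ E, logHeight₁ x ≤ Real.log B ∧
        (∃ t : 𝓞 ℚ, Composed a D δ T t x) ∧
        ∀ v : HeightOneSpectrum (𝓞 ℚ), ((MM a ∅ : ℕ) : 𝓞 ℚ) ∉ v.asIdeal → ∀ j, ∃ i : ℕ,
          v.valuation ℚ (lin (pt (a j)) x) =
            max (v.valuation ℚ x) 1 * WithZero.exp (-(((![2, 1, 1] : Fin 3 → ℕ) j * i : ℕ) : ℤ)) := by
  classical
  obtain ⟨C, hC, hmob⟩ := Pool.Agent.Q103.SDV.height_mob a ha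
  refine ⟨√(Real.exp (-C)) / 400, by positivity, ?_⟩
  intro D δ hD hδ
  refine ⟨max 1 ((2 : ℝ) ^ (1 / δ)), ?_⟩
  intro T hT
  have hT1 : 1 ≤ T := (le_max_left _ _).trans hT
  have hT2 : 2 ≤ T ^ δ := by
    have h1 : (2 : ℝ) ^ (1 / δ) ≤ T := (le_max_right _ _).trans hT
    have h2 := Real.rpow_le_rpow (by positivity) h1 hδ.le
    rw [← Real.rpow_mul (by norm_num), one_div_mul_cancel hδ.ne', Real.rpow_one] at h2
    exact h2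
  obtain ⟨B₀, hB₀⟩ : ∃ B₀ : ℝ, B₀ = max T ((|(a 1 - a 2) / (a 1 - a 0)| : ℚ) + 1) := ⟨_, rfl⟩
  obtain ⟨X₁, hX₁, hmany⟩ := many_t3 B₀
  refine ⟨X₁ ^ 2 * Real.exp C, ?_⟩
  intro B hB
  have hB1 : X₁ ≤ √(B * Real.exp (-C)) := by
    apply Real.le_sqrt_of_sq_le
    rw [Real.exp_neg, ← div_eq_mul_inv, le_div_iff₀ (Real.exp_pos C)]
    exact hB
  have hB0 : 0 < B := by
    have : 0 < X₁ ^ 2 * Real.exp C := by positivity
    linarith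
  obtain ⟨s, hs1, hs2⟩ := hmany _ hB1
  have h10 : a 1 - a 0 ≠ 0 := sub_ne_zero.2 fun h => absurd (ha h) (by decide)
  have hW : ∀ t ∈ s, T ≤ ((t + 1 : ℕ) : ℝ) ∧ t ≠ 0 ∧ WW a (((t + 1 : ℕ) : ℚ) ^ 2)
      (-(((t + 1 : ℕ) : ℚ) ^ 2 - 1)) ≠ 0 ∧
      ((t + 1 : ℕ) : ℝ) ≤ √(B * Real.exp (-C)) ∧ Even (((t + 1 : ℕ)) : ℤ) ∧
      Squarefree (t * (t + 1) * (t + 2)) := by
    intro t ht
    obtain ⟨h1, h2, h3, h4⟩ := hs2 t ht
    have h5 : T ≤ t := by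
      refine le_trans ?_ h1
      rw [hB₀]
      exact le_max_left _ _
    have h6 : ((|(a 1 - a 2) / (a 1 - a 0)| : ℚ) : ℝ) + 1 ≤ t := by
      refine le_trans ?_ h1
      rw [hB₀]
      exact le_max_right _ _
    refine ⟨?_, ?_, ?_, h2, ?_, h4⟩
    · push_cast
      linarith
    · rintro rfl
      push_cast at h5
      linarith
    · intro h7
      unfold WW at h7
      have h8 : ((t + 1 : ℕ) : ℚ) ^ 2 = (a 1 - a 2) / (a 1 - a 0) := by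
        rw [eq_div_iff h10]
        linear_combination h7
      have h9 : ((t + 1 : ℕ) : ℚ) ^ 2 ≤ |(a 1 - a 2) / (a 1 - a 0)| := by
        rw [h8]
        exact le_abs_self _
      have h11 : ((|(a 1 - a 2) / (a 1 - a 0)| : ℚ)) + 1 ≤ (t : ℚ) := by exact_mod_cast h6
      push_cast at h9
      have h12 : (0 : ℚ) ≤ t := Nat.cast_nonneg _
      nlinarith
    · exact_mod_cast h3
  have hbel : ∀ t ∈ s, Belongs a (point ((t + 1 : ℕ) : 𝓞 ℚ) F3 bb3 e33)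
      (xx a (((t + 1 : ℕ) : ℚ) ^ 2) (-(((t + 1 : ℕ) : ℚ) ^ 2 - 1))) := by
    intro t ht
    obtain ⟨h1, h2, h3, h4, h5, h6⟩ := hW t ht
    have h7 := belongs_gen a ha (point ((t + 1 : ℕ) : 𝓞 ℚ) F3 bb3 e33) (by
      rw [coe_sq, coe_mid, coe_last]; ring) (by
      rw [coe_sq, coe_mid]; exact h3)
    rw [coe_sq, coe_mid] at h7
    exact h7
  have hP0 : ∀ t ∈ s, ∀ k, point ((t + 1 : ℕ) : 𝓞 ℚ) F3 bb3 e33 k ≠ 0 := by
    intro t ht k hk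
    obtain ⟨-, h2, -⟩ := hW t ht
    have h3 : (t : ℚ) ≠ 0 := by exact_mod_cast h2
    have h4 : (0 : ℚ) ≤ t := Nat.cast_nonneg _
    have h5 : ((point ((t + 1 : ℕ) : 𝓞 ℚ) F3 bb3 e33 k : 𝓞 ℚ) : ℚ) = 0 := by rw [hk]; rfl
    have h6 : 0 < (t : ℚ) := lt_of_le_of_ne h4 (Ne.symm h3)
    fin_cases k
    · have h7 := coe_sq (t + 1)
      rw [show ((point ((t + 1 : ℕ) : 𝓞 ℚ) F3 bb3 e33 0 : 𝓞 ℚ) : ℚ) = 0 from h5] at h7
      push_cast at h7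
      nlinarith
    · have h7 := coe_mid (t + 1)
      rw [show ((point ((t + 1 : ℕ) : 𝓞 ℚ) F3 bb3 e33 1 : 𝓞 ℚ) : ℚ) = 0 from h5] at h7
      push_cast at h7
      nlinarith
    · have h7 := coe_last (t + 1)
      rw [show ((point ((t + 1 : ℕ) : 𝓞 ℚ) F3 bb3 e33 2 : 𝓞 ℚ) : ℚ) = 0 from h5] at h7
      norm_num at h7
  have hm : ∀ t ∈ s, Pool.Agent.W223.AC.mob a
      (xx a (((t + 1 : ℕ) : ℚ) ^ 2) (-(((t + 1 : ℕ) : ℚ) ^ 2 - 1))) = ((t + 1 : ℕ) : ℚ) ^ 2 := by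
    intro t ht
    rw [(belongs_mob a ha _ (hbel t ht) (hP0 t ht)).2, coe_sq, coe_last]
    ring
  refine ⟨s.image fun t : ℕ => xx a (((t + 1 : ℕ) : ℚ) ^ 2) (-(((t + 1 : ℕ) : ℚ) ^ 2 - 1)), ?_, ?_⟩
  · rw [Finset.card_image_of_injOn]
    · calc √(Real.exp (-C)) / 400 * √B = √B * √(Real.exp (-C)) / 400 := by ring
        _ = √(B * Real.exp (-C)) / 400 := by rw [Real.sqrt_mul hB0.le]
        _ ≤ s.card := hs1
    · intro t ht t' ht' htt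
      have h5 := hm t ht
      have h6 := hm t' ht'
      have h7 : xx a (((t + 1 : ℕ) : ℚ) ^ 2) (-(((t + 1 : ℕ) : ℚ) ^ 2 - 1)) =
        xx a (((t' + 1 : ℕ) : ℚ) ^ 2) (-(((t' + 1 : ℕ) : ℚ) ^ 2 - 1)) := htt
      rw [h7, h6] at h5
      have h8 : ((t' + 1 : ℕ) : ℚ) = ((t + 1 : ℕ) : ℚ) :=
        (sq_eq_sq₀ (Nat.cast_nonneg _) (Nat.cast_nonneg _)).1 h5
      have h9 : t' + 1 = t + 1 := by exact_mod_cast h8
      omega
  · intro x hx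
    rw [Finset.mem_image] at hx
    obtain ⟨t, ht, rfl⟩ := hx
    obtain ⟨h1, h2, h3, h4, h5, h6⟩ := hW t ht
    have hb := hbel t ht
    have hp := hP0 t ht
    refine ⟨?_, ⟨((t + 1 : ℕ) : 𝓞 ℚ), 3, F3, bb3, e33, small3 (t + 1) h5 hD hδ hT1 hT2 h1, ?_,
      squarefree3 t h6, hb⟩, ?_⟩
    · have h7 := (hmob ℚ _ (belongs_mob a ha _ hb hp).1).1
      rw [hm t ht, Module.finrank_self, Nat.cast_one, one_mul, logHeight₁_pow] at h7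
      have h8 : logHeight₁ ((t + 1 : ℕ) : ℚ) = Real.log ((t + 1 : ℕ) : ℝ) := by
        rw [Rat.logHeight₁_natCast]
      rw [h8] at h7
      have h9 : (0 : ℝ) < ((t + 1 : ℕ) : ℝ) := by positivity
      have h10 := Real.log_le_log h9 h4
      rw [Real.log_sqrt (by positivity), Real.log_mul hB0.ne' (Real.exp_pos _).ne',
        Real.log_exp] at h10
      push_cast at h7 h10 ⊢
      linarith
    · rw [unequal3_eq]
      exact Finset.univ_nonempty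
    · intro v hv j
      have h7 : v.valuation ℚ ((point ((t + 1 : ℕ) : 𝓞 ℚ) F3 bb3 e33 2 : 𝓞 ℚ) : ℚ) = 1 := by
        rw [coe_last, Valuation.map_neg, map_one]
      rw [lin_of_unit hb v hv h7 j]
      fin_cases j
      · obtain ⟨k, hk⟩ := val_exp (((t + 1 : ℕ) : 𝓞 ℚ)) (by
          exact_mod_cast Nat.succ_ne_zero t) v
        refine ⟨k, ?_⟩
        congr 1
        have h8 : ((point ((t + 1 : ℕ) : 𝓞 ℚ) F3 bb3 e33 0 : 𝓞 ℚ) : ℚ) =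
            ((((t + 1 : ℕ) : 𝓞 ℚ)) : ℚ) ^ 2 := by
          rw [coe_sq]
          simp
        show v.valuation ℚ ((point ((t + 1 : ℕ) : 𝓞 ℚ) F3 bb3 e33 0 : 𝓞 ℚ) : ℚ) = _
        rw [h8, map_pow, hk, ← WithZero.exp_nsmul]
        congr 1
        show (2 : ℕ) • (-(k : ℤ)) = -((2 * k : ℕ) : ℤ)
        push_cast
        simp
      · obtain ⟨k, hk⟩ := val_exp (point ((t + 1 : ℕ) : 𝓞 ℚ) F3 bb3 e33 1) (hp 1) v
        refine ⟨k, ?_⟩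
        congr 1
        show v.valuation ℚ ((point ((t + 1 : ℕ) : 𝓞 ℚ) F3 bb3 e33 1 : 𝓞 ℚ) : ℚ) = _
        rw [hk]
        congr 2
        show (k : ℤ) = ((1 * k : ℕ) : ℤ)
        rw [one_mul]
      · obtain ⟨k, hk⟩ := val_exp (point ((t + 1 : ℕ) : 𝓞 ℚ) F3 bb3 e33 2) (hp 2) v
        refine ⟨k, ?_⟩
        congr 1
        show v.valuation ℚ ((point ((t + 1 : ℕ) : 𝓞 ℚ) F3 bb3 e33 2 : 𝓞 ℚ) : ℚ) = _
        rw [hk]
        congr 2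
        show (k : ℤ) = ((1 * k : ℕ) : ℤ)
        rw [one_mul]

end Pool.Agent.Q128.SDF
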