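import Mathlib
import Pool.Agent.Q128.SDF.SquareMany

/-!
# Many pairs of rational points composed of numbers with small digits in a common base
-/

set_option autoImplicit false

namespace Pool.Agent.Q128.SDF

open NumberField Height IsDedekindDomain
open scoped Polynomial
open Polynomial (X C)
open Pool.Agent.Results.MP_a793bb_nt.SmallDigitPoints (Small point unequal logN)
open Pool.Agent.Results.MP_71c16a_nt.SmallDigitPoints (Belongs)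

def ea : Fin 3 → Fin 3 → ℕ := ![![0, 0, 1], ![1, 0, 0], ![0, 0, 0]]

def eb : Fin 3 → Fin 3 → ℕ := ![![1, 0, 0], ![0, 1, 0], ![0, 0, 0]]

lemma small_pair (t : ℕ) (hev : Even (t : ℤ)) {D : ℕ} (hD : 3 ≤ D) {δ T : ℝ} (hδ : 0 < δ)
    (hT : 1 ≤ T) (ht : T ≤ t) : Small D δ T (t : 𝓞 ℚ) F3 bb3 ea ∧
      Small D δ T (t : 𝓞 ℚ) F3 bb3 eb := by
  have h1 : 1 ≤ T ^ δ := Real.one_le_rpow hT hδ.le
  have hc1 : ∀ j : ℕ, ∀ σ : ℚ →+* ℂ, ‖σ ((X : (𝓞 ℚ)[X]).coeff j : 𝓞 ℚ)‖ ≤ 1 := by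
    intro j σ
    rw [Polynomial.coeff_X]
    split_ifs <;> simp
  have hc2 : ∀ j : ℕ, ∀ σ : ℚ →+* ℂ, ‖σ ((X + 1 : (𝓞 ℚ)[X]).coeff j : 𝓞 ℚ)‖ ≤ 1 := by
    intro j σ
    rw [Polynomial.coeff_add, Polynomial.coeff_X, Polynomial.coeff_one]
    split_ifs with h2 h3 h3
    · omega
    · simp
    · simp
    · simp
  have hc3 : ∀ j : ℕ, ∀ σ : ℚ →+* ℂ, ‖σ ((X - 1 : (𝓞 ℚ)[X]).coeff j : 𝓞 ℚ)‖ ≤ 1 := by
    intro j σ
    rw [Polynomial.coeff_sub, Polynomial.coeff_X, Polynomial.coeff_one]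
    split_ifs with h2 h3 h3
    · omega
    · simp
    · simp
    · simp
  have hn1 : (X + 1 : (𝓞 ℚ)[X]).natDegree = 1 := by
    rw [← Polynomial.C_1, Polynomial.natDegree_X_add_C]
  have hn2 : (X - 1 : (𝓞 ℚ)[X]).natDegree = 1 := by
    rw [← Polynomial.C_1, Polynomial.natDegree_X_sub_C]
  have hcop : IsCoprime ((t : 𝓞 ℚ) - 1) ((t : 𝓞 ℚ) + 1) := by
    obtain ⟨k, hk⟩ := hev
    have hk' : (t : 𝓞 ℚ) = (k : 𝓞 ℚ) + k := by exact_mod_cast congrArg (Int.cast : ℤ → 𝓞 ℚ) hk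
    rw [hk']
    exact ⟨(k : 𝓞 ℚ) - 1 + (-1) * ((k : 𝓞 ℚ) + k) + 0, -((k : 𝓞 ℚ) - 1) + ((k : 𝓞 ℚ) + k) - 1 + 0,
      by ring⟩
  have hbase : ∀ σ : ℚ →+* ℂ, T ≤ ‖σ ((t : 𝓞 ℚ) : ℚ)‖ := by
    intro σ
    have : ((t : 𝓞 ℚ) : ℚ) = (t : ℚ) := by simp
    rw [this, map_natCast, Complex.norm_natCast]
    exact ht
  have htwo : ∀ i, 0 < (F3 i).natDegree := by
    intro i
    fin_cases i
    · show 0 < (X : (𝓞 ℚ)[X]).natDegree
      rw [Polynomial.natDegree_X]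
      norm_num
    · show 0 < (X - 1 : (𝓞 ℚ)[X]).natDegree
      rw [hn2]
      norm_num
    · show 0 < (X + 1 : (𝓞 ℚ)[X]).natDegree
      rw [hn1]
      norm_num
  have hnum : ∑ i, (F3 i).natDegree ≤ D := by
    rw [Fin.sum_univ_three]
    have h2 : (F3 0).natDegree = 1 := Polynomial.natDegree_X
    have h3 : (F3 1).natDegree = 1 := hn2
    have h4 : (F3 2).natDegree = 1 := hn1
    omega
  have hdig : ∀ i j, ∀ σ : ℚ →+* ℂ, ‖σ ((F3 i).coeff j)‖ ≤ T ^ δ := by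
    intro i j σ
    fin_cases i
    · exact (hc1 j σ).trans h1
    · exact (hc3 j σ).trans h1
    · exact (hc2 j σ).trans h1
  have hfirst : ∀ i, ∀ σ : ℚ →+* ℂ, T ^ (-δ) ≤ ‖σ (F3 i).leadingCoeff‖ := by
    intro i σ
    have h2 : (F3 i).leadingCoeff = 1 := by
      fin_cases i
      · exact Polynomial.leadingCoeff_X
      · show (X - 1 : (𝓞 ℚ)[X]).leadingCoeff = 1
        rw [← Polynomial.C_1, Polynomial.leadingCoeff_X_sub_C]
      · show (X + 1 : (𝓞 ℚ)[X]).leadingCoeff = 1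
        rw [← Polynomial.C_1, Polynomial.leadingCoeff_X_add_C]
    rw [h2]
    have h3 : ‖σ ((1 : 𝓞 ℚ) : ℚ)‖ = 1 := by simp
    rw [h3]
    exact Real.rpow_le_one_of_one_le_of_nonpos hT (by linarith)
  have hlast : ∀ i, ∀ σ : ℚ →+* ℂ, ‖σ ((F3 i).coeff 0)‖ ≤ 1 := by
    intro i σ
    fin_cases i
    · exact hc1 0 σ
    · exact hc3 0 σ
    · exact hc2 0 σ
  have hcopr : ∀ i j, i ≠ j → IsCoprime ((F3 i).eval (t : 𝓞 ℚ)) ((F3 j).eval (t : 𝓞 ℚ)) := by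
    have h01 : IsCoprime ((F3 0).eval (t : 𝓞 ℚ)) ((F3 1).eval (t : 𝓞 ℚ)) := by
      rw [F3_zero, F3_one]
      exact ⟨1, -1, by ring⟩
    have h02 : IsCoprime ((F3 0).eval (t : 𝓞 ℚ)) ((F3 2).eval (t : 𝓞 ℚ)) := by
      rw [F3_zero, F3_two]
      exact ⟨-1, 1, by ring⟩
    have h12 : IsCoprime ((F3 1).eval (t : 𝓞 ℚ)) ((F3 2).eval (t : 𝓞 ℚ)) := by
      rw [F3_one, F3_two]
      exact hcop
    intro i j hij
    fin_cases i <;> fin_cases j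
    · exact absurd rfl hij
    · exact h01
    · exact h02
    · exact h01.symm
    · exact absurd rfl hij
    · exact h12
    · exact h02.symm
    · exact h12.symm
    · exact absurd rfl hij
  have hne : ∀ k, bb3 k ≠ 0 := by
    intro k
    fin_cases k <;> simp [bb3]
  have hcoef : ∀ k, ∀ σ : ℚ →+* ℂ, ‖σ (bb3 k)‖ ≤ T ^ δ := by
    intro k σ
    refine le_trans (le_of_eq ?_) h1
    fin_cases k <;> simp [bb3]
  refine ⟨⟨hbase, htwo, hnum, hdig, hfirst, hlast, hcopr, hne, hcoef, ?_⟩,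
    ⟨hbase, htwo, hnum, hdig, hfirst, hlast, hcopr, hne, hcoef, ?_⟩⟩
  · intro k
    refine le_trans ?_ h1
    rw [Fin.sum_univ_three]
    fin_cases k <;> simp [ea]
  · intro k
    refine le_trans ?_ h1
    rw [Fin.sum_univ_three]
    fin_cases k <;> simp [eb]

lemma unequal_a : unequal ea = {0, 2} := by
  unfold Pool.Agent.Results.MP_a793bb_nt.SmallDigitPoints.unequal
  ext i
  rw [Finset.mem_filter, Finset.mem_insert, Finset.mem_singleton]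
  fin_cases i <;> simp [ea]

lemma unequal_b : unequal eb = {0, 1} := by
  unfold Pool.Agent.Results.MP_a793bb_nt.SmallDigitPoints.unequal
  ext i
  rw [Finset.mem_filter, Finset.mem_insert, Finset.mem_singleton]
  fin_cases i <;> simp [eb]

lemma common_deg : ∑ i ∈ unequal ea ∩ unequal eb, (F3 i).natDegree ≤ 2 := by
  have h : unequal ea ∩ unequal eb = {0} := by
    rw [unequal_a, unequal_b]
    decide
  rw [h, Finset.sum_singleton]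
  have h2 : (F3 0).natDegree = 1 := Polynomial.natDegree_X
  omega

lemma point_a (t : ℕ) : point (t : 𝓞 ℚ) F3 bb3 ea = ![(t : 𝓞 ℚ) + 1, -(t : 𝓞 ℚ), -1] := by
  funext k
  unfold Pool.Agent.Results.MP_a793bb_nt.SmallDigitPoints.point
  rw [Fin.prod_univ_three, F3_zero, F3_one, F3_two]
  fin_cases k <;> simp [bb3, ea]

lemma point_b (t : ℕ) : point (t : 𝓞 ℚ) F3 bb3 eb = ![(t : 𝓞 ℚ), -((t : 𝓞 ℚ) - 1), -1] := by
  funext k
  unfold Pool.Agent.Results.MP_a793bb_nt.SmallDigitPoints.point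
  rw [Fin.prod_univ_three, F3_zero, F3_one, F3_two]
  fin_cases k <;> simp [bb3, eb]

lemma squarefree_ab (t : ℕ) (h : Squarefree (t * (t + 1) * (t + 2))) :
    Squarefree (Ideal.span {∏ i ∈ unequal ea, (F3 i).eval ((t + 1 : ℕ) : 𝓞 ℚ)}) ∧
    Squarefree (Ideal.span {∏ i ∈ unequal eb, (F3 i).eval ((t + 1 : ℕ) : 𝓞 ℚ)}) := by
  have h1 : Squarefree ((t + 1) * (t + 2)) :=
    Squarefree.squarefree_of_dvd ⟨t, by ring⟩ h
  have h2 : Squarefree (t * (t + 1)) := Squarefree.squarefree_of_dvd ⟨t + 2, rfl⟩ h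
  constructor
  · rw [unequal_a, Finset.prod_pair (by decide), F3_zero, F3_two]
    apply squarefree_span
    have h3 := squarefree_nat h1
    have h4 : ((t + 1 : ℕ) : 𝓞 ℚ) * (((t + 1 : ℕ) : 𝓞 ℚ) + 1) =
        (((t + 1) * (t + 2) : ℕ) : 𝓞 ℚ) := by
      push_cast
      ring
    rw [h4]
    exact h3
  · rw [unequal_b, Finset.prod_pair (by decide), F3_zero, F3_one]
    apply squarefree_span
    have h3 := squarefree_nat h2
    have h4 : ((t + 1 : ℕ) : 𝓞 ℚ) * (((t + 1 : ℕ) : 𝓞 ℚ) - 1) =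
        ((t * (t + 1) : ℕ) : 𝓞 ℚ) := by
      push_cast
      ring
    rw [h4]
    exact h3

/-- Many pairs of rational points are composed of numbers with small digits in a common base. -/
theorem many_pairs (a b : Fin 3 → ℚ) (ha : Function.Injective a) (hb : Function.Injective b) :
    ∃ c : ℝ, 0 < c ∧ ∀ (D : ℕ) (δ T : ℝ), 3 ≤ D → 0 < δ → 1 ≤ T → ∃ X₀ : ℝ, ∀ B : ℝ, X₀ ≤ B →
      ∃ E : Finset (ℚ × ℚ), c * B ≤ E.card ∧ ∀ z ∈ E, logHeight₁ z.1 ≤ Real.log B ∧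
        logHeight₁ z.2 ≤ Real.log B ∧ ∃ t : 𝓞 ℚ,
          Small D δ T t F3 bb3 ea ∧ Small D δ T t F3 bb3 eb ∧
          Squarefree (Ideal.span {∏ i ∈ unequal ea, (F3 i).eval t}) ∧
          Squarefree (Ideal.span {∏ i ∈ unequal eb, (F3 i).eval t}) ∧
          Belongs a (point t F3 bb3 ea) z.1 ∧ Belongs b (point t F3 bb3 eb) z.2 := by
  classical
  obtain ⟨C₁, hC₁, hmob⟩ := Pool.Agent.Q103.SDV.height_mob a ha
  obtain ⟨C₂, hC₂, hmob'⟩ := Pool.Agent.Q103.SDV.height_mob b hb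
  obtain ⟨C, hC⟩ : ∃ C, C = C₁ + C₂ := ⟨_, rfl⟩
  refine ⟨Real.exp (-C) / 800, by positivity, ?_⟩
  intro D δ T hD hδ hT
  obtain ⟨B₀, hB₀⟩ : ∃ B₀ : ℝ, B₀ = max T (max ((|(a 2 - a 0) / (a 1 - a 0)| : ℚ) + 1)
    ((|(b 1 - b 2) / (b 1 - b 0)| : ℚ) + 1)) := ⟨_, rfl⟩
  obtain ⟨X₁, hX₁, hmany⟩ := many_t3 B₀
  refine ⟨X₁ * (2 * Real.exp C), ?_⟩
  intro B hB
  have hB1 : X₁ ≤ B * Real.exp (-C) / 2 := by
    rw [Real.exp_neg, ← div_eq_mul_inv, div_div, le_div_iff₀ (by positivity), mul_comm (Real.exp C)]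
    exact hB
  have hB0 : 0 < B := by
    have : 0 < X₁ * (2 * Real.exp C) := by positivity
    linarith
  obtain ⟨s, hs1, hs2⟩ := hmany _ hB1
  have h10 : a 1 - a 0 ≠ 0 := sub_ne_zero.2 fun h => absurd (ha h) (by decide)
  have h10' : b 1 - b 0 ≠ 0 := sub_ne_zero.2 fun h => absurd (hb h) (by decide)
  have hW : ∀ t ∈ s, T ≤ ((t + 1 : ℕ) : ℝ) ∧ t ≠ 0 ∧
      WW a (((t + 1 : ℕ) : ℚ) + 1) (-((t + 1 : ℕ) : ℚ)) ≠ 0 ∧
      WW b ((t + 1 : ℕ) : ℚ) (-(((t + 1 : ℕ) : ℚ) - 1)) ≠ 0 ∧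
      ((t + 1 : ℕ) : ℝ) + 1 ≤ B * Real.exp (-C) ∧ Even (((t + 1 : ℕ)) : ℤ) ∧
      Squarefree (t * (t + 1) * (t + 2)) := by
    intro t ht
    obtain ⟨h1, h2, h3, h4⟩ := hs2 t ht
    have h5 : T ≤ t := by
      refine le_trans ?_ h1
      rw [hB₀]
      exact le_max_left _ _
    have h6 : ((|(a 2 - a 0) / (a 1 - a 0)| : ℚ) : ℝ) + 1 ≤ t := by
      refine le_trans ?_ h1
      rw [hB₀]
      exact (le_max_left _ _).trans (le_max_right _ _)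
    have h6' : ((|(b 1 - b 2) / (b 1 - b 0)| : ℚ) : ℝ) + 1 ≤ t := by
      refine le_trans ?_ h1
      rw [hB₀]
      exact (le_max_right _ _).trans (le_max_right _ _)
    refine ⟨?_, ?_, ?_, ?_, ?_, ?_, h4⟩
    · push_cast
      linarith
    · rintro rfl
      push_cast at h5
      linarith
    · intro h7
      unfold WW at h7
      have h8 : -((t + 1 : ℕ) : ℚ) = (a 2 - a 0) / (a 1 - a 0) := by
        rw [eq_div_iff h10]
        linear_combination -h7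
      have h9 : ((t + 1 : ℕ) : ℚ) ≤ |(a 2 - a 0) / (a 1 - a 0)| := by
        rw [← h8, abs_neg]
        exact le_abs_self _
      have h11 : ((|(a 2 - a 0) / (a 1 - a 0)| : ℚ)) + 1 ≤ (t : ℚ) := by exact_mod_cast h6
      push_cast at h9
      linarith
    · intro h7
      unfold WW at h7
      have h8 : ((t + 1 : ℕ) : ℚ) = (b 1 - b 2) / (b 1 - b 0) := by
        rw [eq_div_iff h10']
        linear_combination h7
      have h9 : ((t + 1 : ℕ) : ℚ) ≤ |(b 1 - b 2) / (b 1 - b 0)| := by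
        rw [h8]
        exact le_abs_self _
      have h11 : ((|(b 1 - b 2) / (b 1 - b 0)| : ℚ)) + 1 ≤ (t : ℚ) := by exact_mod_cast h6'
      push_cast at h9
      linarith
    · push_cast at h2 ⊢
      have : (1 : ℝ) ≤ t := hT.trans h5
      linarith
    · exact_mod_cast h3
  have ca : ∀ t : ℕ, ((point (t : 𝓞 ℚ) F3 bb3 ea 0 : 𝓞 ℚ) : ℚ) = (t : ℚ) + 1 ∧
      ((point (t : 𝓞 ℚ) F3 bb3 ea 1 : 𝓞 ℚ) : ℚ) = -(t : ℚ) ∧
      ((point (t : 𝓞 ℚ) F3 bb3 ea 2 : 𝓞 ℚ) : ℚ) = -1 := by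
    intro t
    rw [point_a]
    refine ⟨?_, ?_, ?_⟩
    · show (((t : 𝓞 ℚ) + 1 : 𝓞 ℚ) : ℚ) = (t : ℚ) + 1
      simp
    · show ((-(t : 𝓞 ℚ) : 𝓞 ℚ) : ℚ) = -(t : ℚ)
      simp
    · show (((-1 : 𝓞 ℚ)) : ℚ) = -1
      simp
  have cb : ∀ t : ℕ, ((point (t : 𝓞 ℚ) F3 bb3 eb 0 : 𝓞 ℚ) : ℚ) = (t : ℚ) ∧
      ((point (t : 𝓞 ℚ) F3 bb3 eb 1 : 𝓞 ℚ) : ℚ) = -((t : ℚ) - 1) ∧
      ((point (t : 𝓞 ℚ) F3 bb3 eb 2 : 𝓞 ℚ) : ℚ) = -1 := by
    intro t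
    rw [point_b]
    refine ⟨?_, ?_, ?_⟩
    · show (((t : 𝓞 ℚ) : 𝓞 ℚ) : ℚ) = (t : ℚ)
      simp
    · show ((-((t : 𝓞 ℚ) - 1) : 𝓞 ℚ) : ℚ) = -((t : ℚ) - 1)
      simp
    · show (((-1 : 𝓞 ℚ)) : ℚ) = -1
      simp
  have hbel : ∀ t ∈ s, Belongs a (point ((t + 1 : ℕ) : 𝓞 ℚ) F3 bb3 ea)
      (xx a (((t + 1 : ℕ) : ℚ) + 1) (-((t + 1 : ℕ) : ℚ))) := by
    intro t ht
    obtain ⟨h1, h2, h3, h3', h4, h5, h6⟩ := hW t ht
    obtain ⟨q0, q1, q2⟩ := ca (t + 1)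
    have h7 := belongs_gen a ha (point ((t + 1 : ℕ) : 𝓞 ℚ) F3 bb3 ea) (by
      rw [q0, q1, q2]; ring) (by
      rw [q0, q1]; exact h3)
    rw [q0, q1] at h7
    exact h7
  have hbel' : ∀ t ∈ s, Belongs b (point ((t + 1 : ℕ) : 𝓞 ℚ) F3 bb3 eb)
      (xx b ((t + 1 : ℕ) : ℚ) (-(((t + 1 : ℕ) : ℚ) - 1))) := by
    intro t ht
    obtain ⟨h1, h2, h3, h3', h4, h5, h6⟩ := hW t ht
    obtain ⟨q0, q1, q2⟩ := cb (t + 1)
    have h7 := belongs_gen b hb (point ((t + 1 : ℕ) : 𝓞 ℚ) F3 bb3 eb) (by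
      rw [q0, q1, q2]; ring) (by
      rw [q0, q1]; exact h3')
    rw [q0, q1] at h7
    exact h7
  have hP0 : ∀ t ∈ s, ∀ k, point ((t + 1 : ℕ) : 𝓞 ℚ) F3 bb3 ea k ≠ 0 := by
    intro t ht k hk
    have h4 : (0 : ℚ) ≤ t := Nat.cast_nonneg _
    obtain ⟨q0, q1, q2⟩ := ca (t + 1)
    have h5 : ((point ((t + 1 : ℕ) : 𝓞 ℚ) F3 bb3 ea k : 𝓞 ℚ) : ℚ) = 0 := by rw [hk]; rfl
    fin_cases k
    · rw [show ((point ((t + 1 : ℕ) : 𝓞 ℚ) F3 bb3 ea 0 : 𝓞 ℚ) : ℚ) = 0 from h5] at q0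
      push_cast at q0
      linarith
    · rw [show ((point ((t + 1 : ℕ) : 𝓞 ℚ) F3 bb3 ea 1 : 𝓞 ℚ) : ℚ) = 0 from h5] at q1
      push_cast at q1
      linarith
    · rw [show ((point ((t + 1 : ℕ) : 𝓞 ℚ) F3 bb3 ea 2 : 𝓞 ℚ) : ℚ) = 0 from h5] at q2
      norm_num at q2
  have hP0' : ∀ t ∈ s, ∀ k, point ((t + 1 : ℕ) : 𝓞 ℚ) F3 bb3 eb k ≠ 0 := by
    intro t ht k hk
    obtain ⟨-, h2, -⟩ := hW t ht
    have h3 : (t : ℚ) ≠ 0 := by exact_mod_cast h2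
    have h4 : (0 : ℚ) ≤ t := Nat.cast_nonneg _
    obtain ⟨q0, q1, q2⟩ := cb (t + 1)
    have h5 : ((point ((t + 1 : ℕ) : 𝓞 ℚ) F3 bb3 eb k : 𝓞 ℚ) : ℚ) = 0 := by rw [hk]; rfl
    fin_cases k
    · rw [show ((point ((t + 1 : ℕ) : 𝓞 ℚ) F3 bb3 eb 0 : 𝓞 ℚ) : ℚ) = 0 from h5] at q0
      push_cast at q0
      linarith
    · rw [show ((point ((t + 1 : ℕ) : 𝓞 ℚ) F3 bb3 eb 1 : 𝓞 ℚ) : ℚ) = 0 from h5] at q1
      push_cast at q1
      apply h3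
      linarith
    · rw [show ((point ((t + 1 : ℕ) : 𝓞 ℚ) F3 bb3 eb 2 : 𝓞 ℚ) : ℚ) = 0 from h5] at q2
      norm_num at q2
  have hm : ∀ t ∈ s, Pool.Agent.W223.AC.mob a
      (xx a (((t + 1 : ℕ) : ℚ) + 1) (-((t + 1 : ℕ) : ℚ))) = ((t + 2 : ℕ) : ℚ) := by
    intro t ht
    obtain ⟨q0, q1, q2⟩ := ca (t + 1)
    rw [(belongs_mob a ha _ (hbel t ht) (hP0 t ht)).2, q0, q2]
    push_cast
    ring
  have hm' : ∀ t ∈ s, Pool.Agent.W223.AC.mob b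
      (xx b ((t + 1 : ℕ) : ℚ) (-(((t + 1 : ℕ) : ℚ) - 1))) = ((t + 1 : ℕ) : ℚ) := by
    intro t ht
    obtain ⟨q0, q1, q2⟩ := cb (t + 1)
    rw [(belongs_mob b hb _ (hbel' t ht) (hP0' t ht)).2, q0, q2]
    ring
  refine ⟨s.image fun t : ℕ => (xx a (((t + 1 : ℕ) : ℚ) + 1) (-((t + 1 : ℕ) : ℚ)),
    xx b ((t + 1 : ℕ) : ℚ) (-(((t + 1 : ℕ) : ℚ) - 1))), ?_, ?_⟩
  · rw [Finset.card_image_of_injOn]
    · calc Real.exp (-C) / 800 * B = B * Real.exp (-C) / 2 / 400 := by ring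
        _ ≤ s.card := hs1
    · intro t ht t' ht' htt
      have h5 := hm t ht
      have h6 := hm t' ht'
      have h7 : xx a (((t + 1 : ℕ) : ℚ) + 1) (-((t + 1 : ℕ) : ℚ)) =
        xx a (((t' + 1 : ℕ) : ℚ) + 1) (-((t' + 1 : ℕ) : ℚ)) := (Prod.ext_iff.1 htt).1
      rw [h7, h6] at h5
      have h9 : t' + 2 = t + 2 := by exact_mod_cast h5
      omega
  · intro z hz
    rw [Finset.mem_image] at hz
    obtain ⟨t, ht, rfl⟩ := hz
    obtain ⟨h1, h2, h3, h3', h4, h5, h6⟩ := hW t ht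
    have hh : ∀ m : ℕ, m ≠ 0 → (m : ℝ) ≤ ((t + 1 : ℕ) : ℝ) + 1 →
        logHeight₁ (m : ℚ) ≤ Real.log B - C := by
      intro m hm hmt
      have : NeZero m := ⟨hm⟩
      have hm0 : (0 : ℝ) < m := by exact_mod_cast Nat.pos_of_ne_zero hm
      rw [Rat.logHeight₁_natCast]
      have h10 := Real.log_le_log hm0 (hmt.trans h4)
      rw [Real.log_mul hB0.ne' (Real.exp_pos _).ne', Real.log_exp] at h10
      linarith
    have hsm := small_pair (t + 1) h5 hD hδ hT h1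
    obtain ⟨hq, hq'⟩ := squarefree_ab t h6
    refine ⟨?_, ?_, ((t + 1 : ℕ) : 𝓞 ℚ), hsm.1, hsm.2, hq, hq', hbel t ht, hbel' t ht⟩
    · have h7 := (hmob ℚ _ (belongs_mob a ha _ (hbel t ht) (hP0 t ht)).1).1
      rw [hm t ht, Module.finrank_self, Nat.cast_one, one_mul] at h7
      have h8 := hh (t + 2) (by omega) (by push_cast; linarith)
      show logHeight₁ (xx a (((t + 1 : ℕ) : ℚ) + 1) (-((t + 1 : ℕ) : ℚ))) ≤ Real.log B
      linarith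
    · have h7 := (hmob' ℚ _ (belongs_mob b hb _ (hbel' t ht) (hP0' t ht)).1).1
      rw [hm' t ht, Module.finrank_self, Nat.cast_one, one_mul] at h7
      have h8 := hh (t + 1) (by omega) (by push_cast; linarith)
      show logHeight₁ (xx b ((t + 1 : ℕ) : ℚ) (-(((t + 1 : ℕ) : ℚ) - 1))) ≤ Real.log B
      linarith

end Pool.Agent.Q128.SDF
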